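import Pool.Agent.K7.H75.DP.FE

/-! # Relations between ordinates near dilated places of a real variable -/

set_option autoImplicit false

namespace Pool.Agent.K7.H75.DQ

open Filter Topology
open Pool.Agent.K7.H75.DP
open SG (NZ ord ord_le_iff)

/-- one place -/
lemma place' {α d κ B : ℝ} (hα : 0 < α) (hd : 0 < d) (hκ : 0 < κ) (hκd : κ ≤ d / 2) (hB : 0 ≤ B) :
    ∃ A : ℝ, 0 < A ∧ ∀ᶠ x : ℝ in atTop, ∀ m : ℕ, |(m : ℝ) - α * x ^ d| ≤ B * x ^ (d - κ) →
      |ord m - 2 * Real.pi * α * x ^ d * ww (d * Real.log x - 1 + Real.log α)| ≤ A * x ^ (d - κ) ∧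
      |ord m| ≤ A * x ^ d := by
  obtain ⟨K, m₀, hK, hm₀, hord⟩ := ord_gg
  have hpi := Real.pi_pos
  have hw := ww_pos (-1)
  obtain ⟨L, hL⟩ : ∃ L : ℝ, L = 2 * Real.pi * ww (-1) := ⟨_, rfl⟩
  have hL0 : 0 < L := by rw [hL]; positivity
  obtain ⟨A1, hA1⟩ : ∃ A1 : ℝ, A1 = 1 + L * B := ⟨_, rfl⟩
  have hA10 : 0 < A1 := by rw [hA1]; positivity
  refine ⟨A1 + L * α, by positivity, ?_⟩
  have hev : ∀ᶠ x : ℝ in atTop, 1 ≤ x ∧
      K * (Real.log (2 * α + 1) + 1) * Real.log x ^ 0 ≤ x ^ (d / 4) ∧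
      K * d * Real.log x ^ 1 ≤ x ^ (d / 4) ∧ 2 * Real.log x ^ 0 ≤ x ^ (d / 4) ∧
      (2 * m₀ + 2) / α * Real.log x ^ 0 ≤ x ^ d ∧ 2 * B / α * Real.log x ^ 0 ≤ x ^ κ := by
    refine Filter.Eventually.and (eventually_ge_atTop _) (Filter.Eventually.and (ev_log _ _ (by positivity))
      (Filter.Eventually.and (ev_log _ _ (by positivity)) (Filter.Eventually.and (ev_log _ _ (by positivity))
      (Filter.Eventually.and (ev_log _ _ hd) (ev_log _ _ hκ)))))
  filter_upwards [hev] with x hn m hm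
  obtain ⟨e0, e1, e2, e3, e4, e5⟩ := hn
  simp only [pow_zero, mul_one, pow_one] at e1 e2 e3 e4 e5
  have hx0 : 0 < x := by linarith
  have hlogx : 0 ≤ Real.log x := Real.log_nonneg e0
  obtain ⟨M, hM⟩ : ∃ M : ℝ, M = α * x ^ d := ⟨_, rfl⟩
  rw [← hM] at hm
  have hxd : 0 < x ^ d := by positivity
  have hM0 : 0 < M := by rw [hM]; positivity
  have hm₀r : (1 : ℝ) ≤ m₀ := by exact_mod_cast hm₀
  have hMge : 2 * (m₀ : ℝ) + 2 ≤ M := by
    rw [div_le_iff₀ hα] at e4
    rw [hM]; linarith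
  have hdk : x ^ (d - κ) * x ^ κ = x ^ d := by
    rw [← Real.rpow_add hx0]; congr 1; ring
  have hdk0 : 0 < x ^ (d - κ) := by positivity
  have hBM : B * x ^ (d - κ) ≤ M / 2 := by
    rw [div_le_iff₀ hα] at e5
    have h1 := mul_le_mul_of_nonneg_left e5 hdk0.le
    rw [hM, ← hdk]
    nlinarith
  have hmM := abs_le.1 hm
  have hm1 : (m₀ : ℝ) ≤ m := by linarith [hmM.1]
  have hm2 : (m : ℝ) ≤ 2 * M := by linarith [hmM.2]
  have hmn : m₀ ≤ m := by exact_mod_cast hm1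
  have hmr1 : (1 : ℝ) ≤ m := by linarith
  have hlogm : Real.log m ≤ Real.log (2 * α + 1) + d * Real.log x := by
    have h1 : Real.log m ≤ Real.log ((2 * α + 1) * x ^ d) := by
      apply Real.log_le_log (by linarith)
      rw [hM] at hm2
      nlinarith
    rwa [Real.log_mul (by positivity) hxd.ne', Real.log_rpow hx0] at h1
  have hlog0 : 0 ≤ Real.log (2 * α + 1) := Real.log_nonneg (by linarith)
  have h4 : 0 < x ^ (d / 4) := by positivity
  have hKlog : K * Real.log m ≤ x ^ (d - κ) := by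
    have h1 : K * Real.log m ≤ K * (Real.log (2 * α + 1) + d * Real.log x) :=
      mul_le_mul_of_nonneg_left hlogm (by linarith)
    have h2 : K * (Real.log (2 * α + 1) + d * Real.log x) ≤ 2 * x ^ (d / 4) := by nlinarith
    have h3 : 2 * x ^ (d / 4) ≤ x ^ (d / 4) * x ^ (d / 4) := mul_le_mul_of_nonneg_right e3 h4.le
    have h5 : x ^ (d / 4) * x ^ (d / 4) ≤ x ^ (d - κ) := by
      rw [← Real.rpow_add hx0]
      exact Real.rpow_le_rpow_of_exponent_le e0 (by linarith)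
    linarith
  have h6 := hord m hmn
  have h7 := gg_lip (a := M) (b := m) (by linarith) hmr1
  rw [← hL] at h7
  have h8 : gg M = 2 * Real.pi * α * x ^ d * ww (d * Real.log x - 1 + Real.log α) := by
    unfold gg
    rw [hM, Real.log_mul hα.ne' hxd.ne', Real.log_rpow hx0]
    have e : Real.log α + d * Real.log x - 1 = d * Real.log x - 1 + Real.log α := by ring
    rw [e]
    ring
  have h9 : |ord m - gg M| ≤ A1 * x ^ (d - κ) := by
    have e : ord m - gg M = (ord m - gg m) + (gg m - gg M) := by ring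
    rw [e]
    refine (abs_add_le _ _).trans ?_
    have h10 : L * |(m : ℝ) - M| ≤ L * (B * x ^ (d - κ)) := mul_le_mul_of_nonneg_left hm hL0.le
    rw [hA1]
    nlinarith
  have hLα : 0 ≤ L * α * x ^ (d - κ) := by positivity
  constructor
  · rw [← h8]
    linarith
  · have h11 : |gg M| ≤ L * α * x ^ d := by
      have h12 := ww_pos (Real.log M - 1)
      have h13 : ww (Real.log M - 1) ≤ ww (-1) := ww_anti (by
        have := Real.log_nonneg (by linarith : 1 ≤ M)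
        linarith)
      unfold gg
      rw [abs_of_nonneg (by positivity), hL]
      calc 2 * Real.pi * M * ww (Real.log M - 1) ≤ 2 * Real.pi * M * ww (-1) :=
            mul_le_mul_of_nonneg_left h13 (by positivity)
        _ = 2 * Real.pi * ww (-1) * α * x ^ d := by rw [hM]; ring
    have h14 : x ^ (d - κ) ≤ x ^ d := Real.rpow_le_rpow_of_exponent_le e0 (by linarith)
    have h15 : |ord m| ≤ |ord m - gg M| + |gg M| := by
      have := abs_add_le (ord m - gg M) (gg M)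
      rwa [sub_add_cancel] at this
    have h16 : A1 * x ^ (d - κ) ≤ A1 * x ^ d := mul_le_mul_of_nonneg_left h14 hA10.le
    linarith

/-- a relation of height at most `y ^ δ` near the places `α j * y ^ d j`, not splitting -/
def Bad {k : ℕ} (α d : Fin k → ℝ) (κ B δ y : ℝ) : Prop :=
  ∃ (m : Fin k → ℕ) (S : ℕ) (c : Fin k → ℕ → ℤ),
    (∀ j, |(m j : ℝ) - α j * y ^ d j| ≤ B * y ^ (d j - κ)) ∧ (S : ℝ) ≤ y ^ δ ∧
    (∀ j s, |(c j s : ℝ)| ≤ y ^ δ) ∧
    |∑ j, ∑ s ∈ Finset.range S, (c j s : ℝ) * ord (m j + s)| ≤ y ^ δ ∧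
    ∃ j, ∑ s ∈ Finset.range S, c j s ≠ 0

/-- the smallness of the main term -/
def SmallM {k : ℕ} (α d : Fin k → ℝ) (lam y : ℝ) (C : Fin k → ℤ) : Prop :=
  ∃ j0, C j0 ≠ 0 ∧ (∀ j, C j ≠ 0 → d j ≤ d j0) ∧
    |∑ j : {j // d j = d j0}, (C j : ℝ) * α j * ww (d j0 * Real.log y - 1 + Real.log (α j))| ≤ y ^ (-lam)

/-- **the class sums of a relation make the main term small** -/
theorem bad_small {k : ℕ} (α d : Fin k → ℝ) (hα : ∀ j, 0 < α j) (hd : ∀ j, 0 < d j)
    {κ : ℝ} (B : ℝ) (hκ : 0 < κ) : ∃ δ₁ lam : ℝ, 0 < δ₁ ∧ 0 < lam ∧ ∀ δ : ℝ, 0 < δ → δ ≤ δ₁ →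
    ∀ᶠ y : ℝ in atTop, ∀ (m : Fin k → ℕ) (S : ℕ) (c : Fin k → ℕ → ℤ),
    (∀ j, |(m j : ℝ) - α j * y ^ d j| ≤ B * y ^ (d j - κ)) → (S : ℝ) ≤ y ^ δ →
    (∀ j s, |(c j s : ℝ)| ≤ y ^ δ) →
    |∑ j, ∑ s ∈ Finset.range S, (c j s : ℝ) * ord (m j + s)| ≤ y ^ δ →
    (∃ j, ∑ s ∈ Finset.range S, c j s ≠ 0) →
    (∀ j, |((∑ s ∈ Finset.range S, c j s : ℤ) : ℝ)| ≤ y ^ (2 * δ)) ∧
      SmallM α d lam y (fun j => ∑ s ∈ Finset.range S, c j s) := by
  classical
  have hpi := Real.pi_pos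
  have hpi3 := Real.pi_gt_three
  obtain ⟨K, m₀, hK, hsub⟩ := ord_sub
  -- constants
  obtain ⟨g, hg0, hg1, hg⟩ := fin_min (fun p : Fin k × Fin k => if d p.1 < d p.2 then d p.2 - d p.1 else 1)
    (fun p => by
      split_ifs with h
      · linarith
      · exact one_pos)
  obtain ⟨dm, hdm0, hdm1, hdm⟩ := fin_min (fun j => d j / 2) (fun j => by have := hd j; linarith)
  obtain ⟨κ₃, hκ₃⟩ : ∃ κ₃ : ℝ, κ₃ = min κ (min g dm) := ⟨_, rfl⟩
  have hκ₃0 : 0 < κ₃ := by rw [hκ₃]; exact lt_min hκ (lt_min hg0 hdm0)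
  have hκ₃κ : κ₃ ≤ κ := by rw [hκ₃]; exact min_le_left _ _
  have hκ₃g : κ₃ ≤ g := by rw [hκ₃]; exact (min_le_right _ _).trans (min_le_left _ _)
  have hκ₃d : ∀ j, κ₃ ≤ d j / 2 := fun j => by
    rw [hκ₃]; exact ((min_le_right _ _).trans (min_le_right _ _)).trans (hdm j)
  have hκ₃1 : κ₃ ≤ 1 := hκ₃g.trans hg1
  have hgap : ∀ i j, d i < d j → d i ≤ d j - κ₃ := by
    intro i j hij
    have := hg (i, j)
    simp only [if_pos hij] at this
    linarith
  have hplace : ∀ j, ∃ A : ℝ, 0 < A ∧ ∀ᶠ y : ℝ in atTop, ∀ m : ℕ,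
      |(m : ℝ) - α j * y ^ d j| ≤ |B| * y ^ (d j - κ₃) →
      |ord m - 2 * Real.pi * α j * y ^ d j * ww (d j * Real.log y - 1 + Real.log (α j))| ≤
        A * y ^ (d j - κ₃) ∧ |ord m| ≤ A * y ^ d j :=
    fun j => place' (hα j) (hd j) hκ₃0 (hκ₃d j) (abs_nonneg B)
  choose A hA0 hA using hplace
  obtain ⟨As, hAs⟩ : ∃ As : ℝ, As = ∑ j, A j := ⟨_, rfl⟩
  have hAs0 : 0 ≤ As := by rw [hAs]; exact Finset.sum_nonneg fun j _ => (hA0 j).le
  have hAj : ∀ j, A j ≤ As := fun j => by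
    rw [hAs]
    exact Finset.single_le_sum (f := A) (fun j _ => (hA0 j).le) (Finset.mem_univ j)
  obtain ⟨P, hP⟩ : ∃ P : ℝ, P = ∑ j, (Real.log (2 * α j + 1) + d j + 1) := ⟨_, rfl⟩
  have hPj0 : ∀ j, 0 ≤ Real.log (2 * α j + 1) + d j + 1 := fun j => by
    have h1 := hα j
    have h2 := hd j
    have h3 : 0 ≤ Real.log (2 * α j + 1) := Real.log_nonneg (by linarith)
    linarith
  have hP0 : 0 ≤ P := by rw [hP]; exact Finset.sum_nonneg fun j _ => hPj0 j
  have hPj : ∀ j, Real.log (2 * α j + 1) + d j + 1 ≤ P := fun j => by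
    rw [hP]
    exact Finset.single_le_sum (f := fun j => Real.log (2 * α j + 1) + d j + 1) (fun j _ => hPj0 j)
      (Finset.mem_univ j)
  have hkr : (0 : ℝ) ≤ k := Nat.cast_nonneg _
  refine ⟨κ₃ / 20, κ₃ / 4, by positivity, by positivity, fun δ hδ0 hδ1 => ?_⟩
  have hδδ : 5 * δ ≤ κ₃ / 4 := by linarith
  have hevn : ∀ᶠ y : ℝ in atTop, ∀ j, (2 * m₀ + 2) / α j ≤ y ^ d j ∧ 2 * |B| / α j ≤ y ^ κ := by
    rw [Filter.eventually_all]
    intro j
    have h1 : ∀ᶠ x : ℝ in atTop, (2 * m₀ + 2) / α j * Real.log x ^ 0 ≤ x ^ d j ∧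
        2 * |B| / α j * Real.log x ^ 0 ≤ x ^ κ :=
      (ev_log _ _ (hd j)).and (ev_log _ _ hκ)
    filter_upwards [h1] with n hn
    simpa using hn
  have hevR : ∀ᶠ x : ℝ in atTop, 3 ≤ x ∧ k * K * P * Real.log x ^ 1 ≤ x ^ δ ∧
      k * K * Real.log x ^ 0 ≤ x ^ δ ∧ 3 * Real.log x ^ 0 ≤ x ^ δ ∧
      (1 + k * As) * Real.log x ^ 0 ≤ x ^ (κ₃ / 4) := by
    exact (eventually_ge_atTop 3).and ((ev_log _ _ hδ0).and ((ev_log _ _ hδ0).and ((ev_log _ _ hδ0).and
      (ev_log _ _ (by positivity)))))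
  filter_upwards [hevR, hevn, Filter.eventually_all.2 hA] with y hyR hyn hyA m S c hm hS hc hsum hne
  obtain ⟨e0, e1, e2, e3, e4⟩ := hyR
  simp only [pow_zero, mul_one, pow_one] at e1 e2 e3 e4
  have hy0 : 0 < y := by linarith
  have hy1 : 1 ≤ y := by linarith
  have hlogy : 1 ≤ Real.log y := by
    rw [Real.le_log_iff_exp_le hy0]
    have := Real.exp_one_lt_d9
    linarith
  have hyδ0 : 0 < y ^ δ := by positivity
  have hp2 : y ^ δ * y ^ δ = y ^ (2 * δ) := by
    rw [← Real.rpow_add hy0]; congr 1; ring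
  have hp5 : y ^ δ * y ^ δ * y ^ δ * y ^ δ * y ^ δ = y ^ (5 * δ) := by
    rw [← Real.rpow_add hy0, ← Real.rpow_add hy0, ← Real.rpow_add hy0, ← Real.rpow_add hy0]
    congr 1; ring
  have hpl : ∀ j, m₀ ≤ m j ∧ (m j : ℝ) ≤ 2 * α j * y ^ d j := by
    intro j
    obtain ⟨f2, f3⟩ := hyn j
    have hαj := hα j
    have hnd : 0 < y ^ d j := by positivity
    have h1 : y ^ (d j - κ) * y ^ κ = y ^ d j := by
      rw [← Real.rpow_add hy0]; congr 1; ring
    have h2 : 0 < y ^ (d j - κ) := by positivity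
    have h3 : B * y ^ (d j - κ) ≤ α j * y ^ d j / 2 := by
      rw [div_le_iff₀ hαj] at f3
      have h4 := mul_le_mul_of_nonneg_left f3 h2.le
      have h5 : B * y ^ (d j - κ) ≤ |B| * y ^ (d j - κ) :=
        mul_le_mul_of_nonneg_right (le_abs_self B) h2.le
      rw [← h1]
      nlinarith
    have h4 := abs_le.1 ((hm j).trans h3)
    rw [div_le_iff₀ hαj] at f2
    constructor
    · have : (m₀ : ℝ) ≤ m j := by linarith [h4.1]
      exact_mod_cast this
    · nlinarith [h4.2]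
  have hdiff : ∀ j, ∀ s ∈ Finset.range S, |ord (m j + s) - ord (m j)| ≤ K * (P * Real.log y + y ^ δ) := by
    intro j s hs
    have hsS : (s : ℝ) ≤ y ^ δ := by
      have : (s : ℝ) ≤ S := by exact_mod_cast (Finset.mem_range.1 hs).le
      linarith
    refine (hsub (m j) s (hpl j).1).trans ?_
    apply mul_le_mul_of_nonneg_left _ (by linarith)
    apply add_le_add _ hsS
    have hαj := hα j
    have hdj := hd j
    have hxd1 : 1 ≤ y ^ d j := Real.one_le_rpow hy1 hdj.le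
    by_cases hz : (m j : ℝ) + s = 0
    · rw [hz, Real.log_zero]
      positivity
    · have h0 : 0 < (m j : ℝ) + s := lt_of_le_of_ne (by positivity) (Ne.symm hz)
      have h1 : (m j : ℝ) + s ≤ (2 * α j + 1) * (y ^ d j * y) := by
        have h2 : y ^ δ ≤ y := by
          calc y ^ δ ≤ y ^ (1 : ℝ) := Real.rpow_le_rpow_of_exponent_le hy1 (by linarith)
            _ = y := Real.rpow_one y
        have h3 : 2 * α j * y ^ d j ≤ 2 * α j * (y ^ d j * y) := by
          apply mul_le_mul_of_nonneg_left _ (by positivity)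
          exact le_mul_of_one_le_right (by positivity) hy1
        have h4 : y ≤ y ^ d j * y := le_mul_of_one_le_left hy0.le hxd1
        have h5 := (hpl j).2
        nlinarith
      have h2 := Real.log_le_log h0 h1
      rw [Real.log_mul (by positivity) (by positivity), Real.log_mul (by positivity) hy0.ne',
        Real.log_rpow hy0] at h2
      have h3 := hPj j
      have h4 : 0 ≤ Real.log (2 * α j + 1) := Real.log_nonneg (by linarith)
      have h5 : Real.log (2 * α j + 1) ≤ Real.log (2 * α j + 1) * Real.log y :=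
        le_mul_of_one_le_right h4 hlogy
      nlinarith
  obtain ⟨C, hC⟩ : ∃ C : Fin k → ℤ, ∀ j, C j = ∑ s ∈ Finset.range S, c j s := ⟨_, fun j => rfl⟩
  have hCb : ∀ j, |(C j : ℝ)| ≤ y ^ (2 * δ) := by
    intro j
    rw [hC]
    push_cast
    refine (Finset.abs_sum_le_sum_abs _ _).trans ?_
    calc ∑ s ∈ Finset.range S, |(c j s : ℝ)| ≤ ∑ s ∈ Finset.range S, y ^ δ :=
          Finset.sum_le_sum fun s _ => hc j s
      _ = S * y ^ δ := by rw [Finset.sum_const, Finset.card_range, nsmul_eq_mul]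
      _ ≤ y ^ δ * y ^ δ := mul_le_mul_of_nonneg_right hS hyδ0.le
      _ = y ^ (2 * δ) := hp2
  have hCsum : |∑ j, (C j : ℝ) * ord (m j)| ≤ y ^ (5 * δ) := by
    have h1 : ∑ j, (C j : ℝ) * ord (m j) =
        ∑ j, ∑ s ∈ Finset.range S, (c j s : ℝ) * ord (m j + s) -
        ∑ j, ∑ s ∈ Finset.range S, (c j s : ℝ) * (ord (m j + s) - ord (m j)) := by
      rw [← Finset.sum_sub_distrib]
      refine Finset.sum_congr rfl fun j _ => ?_
      rw [← Finset.sum_sub_distrib, hC]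
      push_cast
      rw [Finset.sum_mul]
      exact Finset.sum_congr rfl fun s _ => by ring
    rw [h1]
    refine (abs_sub _ _).trans ?_
    have h2 : |∑ j, ∑ s ∈ Finset.range S, (c j s : ℝ) * (ord (m j + s) - ord (m j))| ≤
        k * (y ^ δ * (y ^ δ * (K * (P * Real.log y + y ^ δ)))) := by
      refine (Finset.abs_sum_le_sum_abs _ _).trans ?_
      calc ∑ j, |∑ s ∈ Finset.range S, (c j s : ℝ) * (ord (m j + s) - ord (m j))|
          ≤ ∑ j : Fin k, y ^ δ * (y ^ δ * (K * (P * Real.log y + y ^ δ))) := by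
            refine Finset.sum_le_sum fun j _ => ?_
            refine (Finset.abs_sum_le_sum_abs _ _).trans ?_
            calc ∑ s ∈ Finset.range S, |(c j s : ℝ) * (ord (m j + s) - ord (m j))|
                ≤ ∑ s ∈ Finset.range S, y ^ δ * (K * (P * Real.log y + y ^ δ)) := by
                  refine Finset.sum_le_sum fun s hs => ?_
                  rw [abs_mul]
                  exact mul_le_mul (hc j s) (hdiff j s hs) (abs_nonneg _) hyδ0.le
              _ = S * (y ^ δ * (K * (P * Real.log y + y ^ δ))) := by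
                  rw [Finset.sum_const, Finset.card_range, nsmul_eq_mul]
              _ ≤ _ := mul_le_mul_of_nonneg_right hS (by positivity)
        _ = _ := by rw [Finset.sum_const, Finset.card_univ, Fintype.card_fin, nsmul_eq_mul]
    have h3 : k * (y ^ δ * (y ^ δ * (K * (P * Real.log y + y ^ δ)))) ≤
        y ^ δ * y ^ δ * (y ^ δ + y ^ δ * y ^ δ) := by
      have h4 : k * (y ^ δ * (y ^ δ * (K * (P * Real.log y + y ^ δ)))) =
          y ^ δ * y ^ δ * (k * K * P * Real.log y + k * K * y ^ δ) := by ring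
      rw [h4]
      apply mul_le_mul_of_nonneg_left _ (by positivity)
      exact add_le_add e1 (mul_le_mul_of_nonneg_right e2 hyδ0.le)
    have h5 : y ^ δ + y ^ δ * y ^ δ * (y ^ δ + y ^ δ * y ^ δ) ≤ y ^ (5 * δ) := by
      rw [← hp5]
      obtain ⟨u, hu⟩ : ∃ u : ℝ, u = y ^ δ := ⟨_, rfl⟩
      rw [← hu] at e3 ⊢
      have hu0 : 0 < u := by linarith
      have g1 : u ≤ u ^ 4 := le_self_pow₀ (by linarith) (by norm_num)
      have g2 : u ^ 3 ≤ u ^ 4 := pow_le_pow_right₀ (by linarith) (by norm_num)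
      have g3 : 3 * u ^ 4 ≤ u * u ^ 4 := mul_le_mul_of_nonneg_right e3 (by positivity)
      nlinarith
    linarith
  have hCfun : (fun j => ∑ s ∈ Finset.range S, c j s) = C := funext fun j => (hC j).symm
  refine ⟨fun j => by rw [← hC]; exact hCb j, ?_⟩
  rw [hCfun]
  obtain ⟨j1, hj1⟩ := hne
  rw [← hC] at hj1
  obtain ⟨j0, hj0, hmax⟩ := Finset.exists_max_image (Finset.univ.filter (fun j => C j ≠ 0)) d
    ⟨j1, Finset.mem_filter.2 ⟨Finset.mem_univ _, hj1⟩⟩
  have hcj0 : C j0 ≠ 0 := (Finset.mem_filter.1 hj0).2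
  have hDmax : ∀ j, C j ≠ 0 → d j ≤ d j0 := fun j hj =>
    hmax j (Finset.mem_filter.2 ⟨Finset.mem_univ _, hj⟩)
  refine ⟨j0, hcj0, hDmax, ?_⟩
  have hpl2 := fun j => hyA j (m j) (by
    refine (hm j).trans ?_
    apply mul_le_mul (le_abs_self B) _ (by positivity) (abs_nonneg _)
    exact Real.rpow_le_rpow_of_exponent_le hy1 (by linarith))
  obtain ⟨e, he⟩ : ∃ e : Fin k → ℝ, ∀ j, e j = (C j : ℝ) * ord (m j) -
    (if d j = d j0 then (C j : ℝ) * (2 * Real.pi * α j * y ^ d j *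
      ww (d j * Real.log y - 1 + Real.log (α j))) else 0) := ⟨_, fun j => rfl⟩
  have hy5 : y ^ (2 * δ) ≤ y ^ (5 * δ) := Real.rpow_le_rpow_of_exponent_le hy1 (by linarith)
  have hCb' : ∀ j, |(C j : ℝ)| ≤ y ^ (5 * δ) := fun j => (hCb j).trans hy5
  have hyδ5 : 0 < y ^ (5 * δ) := by positivity
  have hyD : 0 < y ^ (d j0 - κ₃) := by positivity
  have heb : ∀ j, |e j| ≤ y ^ (5 * δ) * (As * y ^ (d j0 - κ₃)) := by
    intro j
    rw [he]
    by_cases hdj : d j = d j0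
    · rw [if_pos hdj, ← mul_sub, abs_mul]
      apply mul_le_mul (hCb' j) _ (abs_nonneg _) hyδ5.le
      refine (hpl2 j).1.trans ?_
      rw [hdj]
      exact mul_le_mul_of_nonneg_right (hAj j) hyD.le
    · rw [if_neg hdj, sub_zero]
      by_cases hcj : C j = 0
      · rw [hcj, Int.cast_zero, zero_mul, abs_zero]
        positivity
      · rw [abs_mul]
        apply mul_le_mul (hCb' j) _ (abs_nonneg _) hyδ5.le
        refine (hpl2 j).2.trans ?_
        apply mul_le_mul (hAj j) _ (by positivity) hAs0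
        exact Real.rpow_le_rpow_of_exponent_le hy1
          (hgap j j0 (lt_of_le_of_ne (hDmax j hcj) hdj))
  have hsum2 : ∑ j, (if d j = d j0 then (C j : ℝ) * (2 * Real.pi * α j * y ^ d j *
      ww (d j * Real.log y - 1 + Real.log (α j))) else 0) =
      2 * Real.pi * y ^ d j0 * ∑ j : {j // d j = d j0}, (C j : ℝ) * α j *
        ww (d j0 * Real.log y - 1 + Real.log (α j)) := by
    rw [← Finset.sum_filter, Finset.sum_subtype (p := fun j => d j = d j0) (Finset.univ.filter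
      (fun j => d j = d j0)) (fun j => by simp), Finset.mul_sum]
    refine Finset.sum_congr rfl fun j _ => ?_
    rw [j.2]
    ring
  have hS2 : |2 * Real.pi * y ^ d j0 * ∑ j : {j // d j = d j0}, (C j : ℝ) * α j *
        ww (d j0 * Real.log y - 1 + Real.log (α j))| ≤ y ^ (5 * δ) * ((1 + k * As) * y ^ (d j0 - κ₃)) := by
    rw [← hsum2]
    have h1 : ∑ j, (if d j = d j0 then (C j : ℝ) * (2 * Real.pi * α j * y ^ d j *
      ww (d j * Real.log y - 1 + Real.log (α j))) else 0) =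
      ∑ j, (C j : ℝ) * ord (m j) - ∑ j, e j := by
      rw [← Finset.sum_sub_distrib]
      refine Finset.sum_congr rfl fun j _ => ?_
      rw [he]; ring
    rw [h1]
    refine (abs_sub _ _).trans ?_
    have h2 : |∑ j, e j| ≤ k * (y ^ (5 * δ) * (As * y ^ (d j0 - κ₃))) := by
      refine (Finset.abs_sum_le_sum_abs _ _).trans ((Finset.sum_le_sum fun j _ => heb j).trans ?_)
      rw [Finset.sum_const, Finset.card_univ, Fintype.card_fin, nsmul_eq_mul]
    have h3 : 1 ≤ y ^ (d j0 - κ₃) := Real.one_le_rpow hy1 (by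
      have := hκ₃d j0
      have := hd j0
      linarith)
    nlinarith
  obtain ⟨Sg, hSg⟩ : ∃ Sg : ℝ, Sg = |∑ j : {j // d j = d j0}, (C j : ℝ) * α j *
        ww (d j0 * Real.log y - 1 + Real.log (α j))| := ⟨_, rfl⟩
  rw [abs_mul, ← hSg, abs_of_pos (by positivity)] at hS2
  rw [← hSg]
  have hSg0 : 0 ≤ Sg := by rw [hSg]; exact abs_nonneg _
  have hyκ : y ^ (d j0 - κ₃) = y ^ d j0 * y ^ (-κ₃) := by
    rw [← Real.rpow_add hy0]; congr 1
  have hyd : 0 < y ^ d j0 := by positivity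
  have h4 : Sg ≤ y ^ (5 * δ) * ((1 + k * As) * y ^ (-κ₃)) := by
    rw [hyκ] at hS2
    have h5 : y ^ d j0 * Sg ≤ y ^ d j0 * (y ^ (5 * δ) * ((1 + k * As) * y ^ (-κ₃))) := by
      calc y ^ d j0 * Sg ≤ 2 * Real.pi * (y ^ d j0 * Sg) := by
            have : 0 ≤ y ^ d j0 * Sg := by positivity
            nlinarith
        _ = 2 * Real.pi * y ^ d j0 * Sg := by ring
        _ ≤ _ := hS2
        _ = _ := by ring
    exact le_of_mul_le_mul_left h5 hyd
  calc Sg ≤ y ^ (5 * δ) * ((1 + k * As) * y ^ (-κ₃)) := h4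
    _ ≤ y ^ (5 * δ) * (y ^ (κ₃ / 4) * y ^ (-κ₃)) := by
        apply mul_le_mul_of_nonneg_left _ hyδ5.le
        exact mul_le_mul_of_nonneg_right e4 (by positivity)
    _ = y ^ (5 * δ + (κ₃ / 4 + -κ₃)) := by rw [Real.rpow_add hy0, Real.rpow_add hy0]
    _ ≤ y ^ (-(κ₃ / 4)) := Real.rpow_le_rpow_of_exponent_le hy1 (by linarith)

end Pool.Agent.K7.H75.DQ
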