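import Pool.Agent.K7.H75.DQ.A

/-! # Every large place -/

set_option autoImplicit false

namespace Pool.Agent.K7.H75.DQ

open Filter Topology
open Pool.Agent.K7.H75.DP
open SG (NZ ord ord_le_iff)

/-- a combination of translates of `w` does not vanish near infinity -/
lemma nonvan {k : ℕ} (β a : Fin k → ℝ) (hβ : Function.Injective β) (ha : ∃ j, a j ≠ 0) :
    ∃ (e : ℝ) (s₀ : ℕ), 0 < e ∧ ∀ᶠ z : ℝ in atTop, e ≤ z ^ (s₀ + 1) * |∑ j, a j * ww (z + β j)| := by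
  classical
  have hex : ∃ s : ℕ, ∑ j, a j * β j ^ s ≠ 0 := by
    by_contra hcon
    push Not at hcon
    obtain ⟨c, hc, hv⟩ := vand_lower β hβ
    obtain ⟨j, hj⟩ := ha
    have h1 := hv a 0 (fun s => by
      have h2 := hcon (s : ℕ)
      have h3 : ∑ j, β j ^ (s : ℕ) * a j = ∑ j, a j * β j ^ (s : ℕ) :=
        Finset.sum_congr rfl fun j _ => mul_comm _ _
      rw [h3, h2, abs_zero]) j
    have h2 : 0 < |a j| := abs_pos.2 hj
    nlinarith
  obtain ⟨s₀, hs₀, hmin⟩ : ∃ s₀ : ℕ, ∑ j, a j * β j ^ s₀ ≠ 0 ∧ ∀ s < s₀, ∑ j, a j * β j ^ s = 0 :=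
    ⟨Nat.find hex, Nat.find_spec hex, fun s hs => by simpa using Nat.find_min hex hs⟩
  obtain ⟨A, hA⟩ : ∃ A : ℝ, A = ∑ j, a j * β j ^ s₀ := ⟨_, rfl⟩
  rw [← hA] at hs₀
  have hA0 : 0 < |A| := abs_pos.2 hs₀
  obtain ⟨z₁, hz₁1, hz₁⟩ := W_bound (s₀ + 2) (θ := 1 / 2) (by norm_num)
  obtain ⟨K₂, hK₂⟩ : ∃ K₂ : ℝ, K₂ = ((s₀ + 1).factorial : ℝ) + 1 := ⟨_, rfl⟩
  have hK₂0 : 0 < K₂ := by rw [hK₂]; positivity
  obtain ⟨b, hb⟩ : ∃ b : ℝ, b = 1 + ∑ j, |β j| := ⟨_, rfl⟩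
  have hbj : ∀ j, |β j| ≤ b := fun j => by
    rw [hb]
    have := Finset.single_le_sum (f := fun j => |β j|) (fun j _ => abs_nonneg _) (Finset.mem_univ j)
    linarith
  have hb1 : 1 ≤ b := by
    rw [hb]
    have : 0 ≤ ∑ j, |β j| := Finset.sum_nonneg fun j _ => abs_nonneg _
    linarith
  obtain ⟨K₃, hK₃⟩ : ∃ K₃ : ℝ, K₃ = (∑ j, |a j|) * (K₂ * 2 ^ (s₀ + 2) * b ^ (s₀ + 1)) := ⟨_, rfl⟩
  have hK₃0 : 0 ≤ K₃ := by
    rw [hK₃]
    have : 0 ≤ ∑ j, |a j| := Finset.sum_nonneg fun j _ => abs_nonneg _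
    positivity
  refine ⟨|A| / 4, s₀, by positivity, ?_⟩
  filter_upwards [eventually_ge_atTop (2 * b + 2 * z₁ + 4 * K₃ / |A|)] with z hz
  have hKA : 0 ≤ 4 * K₃ / |A| := by positivity
  have hz0 : 0 < z := by linarith
  have hzz : 0 < z ^ (s₀ + 1) := by positivity
  have hWb : ∀ x, z / 2 ≤ x → |W (s₀ + 1) x| ≤ K₂ * 2 ^ (s₀ + 2) / z ^ (s₀ + 2) := by
    intro x hx
    have hx0 : 0 < x := by linarith
    have h1 := hz₁ x (by linarith) (s₀ + 1) (by omega)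
    have h3 : |(-1 : ℝ) ^ (s₀ + 1) * (s₀ + 1).factorial| = (s₀ + 1).factorial := by
      rw [abs_mul, abs_pow, abs_neg, abs_one, one_pow, one_mul, Nat.abs_cast]
    have h5 := abs_sub_abs_le_abs_sub (x ^ (s₀ + 1 + 1) * W (s₀ + 1) x) ((-1) ^ (s₀ + 1) * (s₀ + 1).factorial)
    rw [h3] at h5
    have h2 : |x ^ (s₀ + 1 + 1) * W (s₀ + 1) x| ≤ K₂ := by
      rw [hK₂]
      linarith
    rw [abs_mul, abs_of_pos (by positivity : 0 < x ^ (s₀ + 1 + 1))] at h2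
    rw [le_div_iff₀ (by positivity)]
    have h6 : z ^ (s₀ + 2) ≤ 2 ^ (s₀ + 2) * x ^ (s₀ + 2) := by
      rw [← mul_pow]
      exact pow_le_pow_left₀ hz0.le (by linarith) _
    calc |W (s₀ + 1) x| * z ^ (s₀ + 2) ≤ |W (s₀ + 1) x| * (2 ^ (s₀ + 2) * x ^ (s₀ + 2)) :=
          mul_le_mul_of_nonneg_left h6 (abs_nonneg _)
      _ = (x ^ (s₀ + 1 + 1) * |W (s₀ + 1) x|) * 2 ^ (s₀ + 2) := by ring
      _ ≤ K₂ * 2 ^ (s₀ + 2) := mul_le_mul_of_nonneg_right h2 (by positivity)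
  have htay : ∀ j, |ww (z + β j) - ∑ s ∈ Finset.range (s₀ + 1), W s z * β j ^ s / (s.factorial : ℝ)| ≤
      K₂ * 2 ^ (s₀ + 2) / z ^ (s₀ + 2) * b ^ (s₀ + 1) := by
    intro j
    have h1 := taylor (s₀ + 1) W W_deriv z (β j) (K₂ * 2 ^ (s₀ + 2) / z ^ (s₀ + 2)) (fun x hx => by
      apply hWb
      have h2 := (abs_le.1 (hx.trans (hbj j))).1
      linarith)
    rw [W_zero] at h1
    refine h1.trans ?_
    apply mul_le_mul_of_nonneg_left _ (by positivity)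
    exact pow_le_pow_left₀ (abs_nonneg _) (hbj j) _
  have hmain : ∑ j, a j * ∑ s ∈ Finset.range (s₀ + 1), W s z * β j ^ s / (s.factorial : ℝ) =
      W s₀ z / (s₀.factorial : ℝ) * A := by
    have h1 : ∑ j, a j * ∑ s ∈ Finset.range (s₀ + 1), W s z * β j ^ s / (s.factorial : ℝ) =
        ∑ s ∈ Finset.range (s₀ + 1), W s z / (s.factorial : ℝ) * ∑ j, a j * β j ^ s := by
      simp only [Finset.mul_sum]
      rw [Finset.sum_comm]
      refine Finset.sum_congr rfl fun s _ => Finset.sum_congr rfl fun j _ => by ring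
    rw [h1, Finset.sum_range_succ, Finset.sum_eq_zero (fun s hs => by
      rw [hmin s (Finset.mem_range.1 hs), mul_zero]), zero_add, ← hA]
  have hrem : |∑ j, a j * ww (z + β j) - W s₀ z / (s₀.factorial : ℝ) * A| ≤ K₃ / z ^ (s₀ + 2) := by
    rw [← hmain, ← Finset.sum_sub_distrib]
    refine (Finset.abs_sum_le_sum_abs _ _).trans ?_
    calc ∑ j, |a j * ww (z + β j) - a j * ∑ s ∈ Finset.range (s₀ + 1), W s z * β j ^ s / (s.factorial : ℝ)|
        ≤ ∑ j, |a j| * (K₂ * 2 ^ (s₀ + 2) / z ^ (s₀ + 2) * b ^ (s₀ + 1)) := by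
          refine Finset.sum_le_sum fun j _ => ?_
          rw [← mul_sub, abs_mul]
          exact mul_le_mul_of_nonneg_left (htay j) (abs_nonneg _)
      _ = K₃ / z ^ (s₀ + 2) := by
          rw [← Finset.sum_mul, hK₃]
          ring
  have hmain2 : |A| / 2 ≤ z ^ (s₀ + 1) * |W s₀ z / (s₀.factorial : ℝ) * A| := by
    have h1 := hz₁ z (by linarith) s₀ (by omega)
    have h3 : |(-1 : ℝ) ^ s₀ * s₀.factorial| = s₀.factorial := by
      rw [abs_mul, abs_pow, abs_neg, abs_one, one_pow, one_mul, Nat.abs_cast]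
    have h5 := abs_sub_abs_le_abs_sub ((-1) ^ s₀ * (s₀.factorial : ℝ)) (z ^ (s₀ + 1) * W s₀ z)
    rw [h3, abs_sub_comm] at h5
    have hf1 : (1 : ℝ) ≤ s₀.factorial := by exact_mod_cast Nat.one_le_iff_ne_zero.2 (Nat.factorial_ne_zero _)
    have h6 : (s₀.factorial : ℝ) / 2 ≤ |z ^ (s₀ + 1) * W s₀ z| := by linarith
    rw [abs_mul, abs_of_pos hzz] at h6
    rw [abs_mul, abs_div, Nat.abs_cast]
    have h7 : z ^ (s₀ + 1) * (|W s₀ z| / (s₀.factorial : ℝ) * |A|) =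
        (z ^ (s₀ + 1) * |W s₀ z|) / (s₀.factorial : ℝ) * |A| := by ring
    rw [h7]
    have h8 : (1 : ℝ) / 2 ≤ (z ^ (s₀ + 1) * |W s₀ z|) / (s₀.factorial : ℝ) := by
      rw [le_div_iff₀ (by linarith)]
      linarith
    nlinarith
  have h9 := abs_sub_abs_le_abs_sub (W s₀ z / (s₀.factorial : ℝ) * A) (∑ j, a j * ww (z + β j))
  rw [abs_sub_comm] at h9
  have h10 : z ^ (s₀ + 1) * (K₃ / z ^ (s₀ + 2)) ≤ |A| / 4 := by
    have h11 : z ^ (s₀ + 1) * (K₃ / z ^ (s₀ + 2)) = K₃ / z := by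
      field_simp
      ring
    rw [h11, div_le_iff₀ hz0]
    have h12 : 4 * K₃ / |A| ≤ z := by linarith
    rw [div_le_iff₀ hA0] at h12
    linarith
  have h11 := mul_le_mul_of_nonneg_left (h9.trans hrem) hzz.le
  rw [mul_sub] at h11
  linarith

/-- the same in terms of `y` -/
lemma nonvan' {ι : Type*} [Fintype ι] (β a : ι → ℝ) (hβ : Function.Injective β) (ha : ∃ j, a j ≠ 0)
    {d lam : ℝ} (hd : 0 < d) (hlam : 0 < lam) :
    ∀ᶠ y : ℝ in atTop, y ^ (-lam) < |∑ j, a j * ww (d * Real.log y - 1 + β j)| := by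
  obtain ⟨e, s₀, he, h⟩ := nonvan (k := Fintype.card ι) (β ∘ (Fintype.equivFin ι).symm)
    (a ∘ (Fintype.equivFin ι).symm) (hβ.comp (Equiv.injective _)) (by
      obtain ⟨j, hj⟩ := ha
      exact ⟨Fintype.equivFin ι j, by simpa using hj⟩)
  have h1 : Tendsto (fun y : ℝ => d * Real.log y - 1) atTop atTop := by
    have h2 : Tendsto (fun x : ℝ => d * Real.log x) atTop atTop :=
      Real.tendsto_log_atTop.const_mul_atTop hd
    exact tendsto_atTop_add_const_right _ (-1) h2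
  filter_upwards [h1.eventually h, h1.eventually_ge_atTop 0, eventually_gt_atTop 1,
    ev_log (2 * d ^ (s₀ + 1) / e) (s₀ + 1) hlam] with y hy hz hy1 hlog
  have hy0 : 0 < y := by linarith
  have h3 : ∑ j, a j * ww (d * Real.log y - 1 + β j) = ∑ j, (a ∘ (Fintype.equivFin ι).symm) j *
      ww (d * Real.log y - 1 + (β ∘ (Fintype.equivFin ι).symm) j) :=
    (Equiv.sum_comp (Fintype.equivFin ι).symm
      (fun j => a j * ww (d * Real.log y - 1 + β j))).symm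
  rw [h3]
  obtain ⟨X, hX⟩ : ∃ X : ℝ, X = |∑ j, (a ∘ (Fintype.equivFin ι).symm) j *
      ww (d * Real.log y - 1 + (β ∘ (Fintype.equivFin ι).symm) j)| := ⟨_, rfl⟩
  rw [← hX] at hy ⊢
  have hX0 : 0 ≤ X := by rw [hX]; exact abs_nonneg _
  have hlogy : 0 < Real.log y := Real.log_pos hy1
  have h4 : (d * Real.log y - 1) ^ (s₀ + 1) ≤ (d * Real.log y) ^ (s₀ + 1) :=
    pow_le_pow_left₀ hz (by linarith) _
  have h5 : e ≤ (d * Real.log y) ^ (s₀ + 1) * X := hy.trans (mul_le_mul_of_nonneg_right h4 hX0)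
  rw [mul_pow] at h5
  have h6 : 2 * (d ^ (s₀ + 1) * Real.log y ^ (s₀ + 1)) ≤ e * y ^ lam := by
    rw [div_mul_eq_mul_div, div_le_iff₀ he] at hlog
    linarith
  have hylam : 0 < y ^ lam := by positivity
  have h7 : 2 * e ≤ e * y ^ lam * X := by
    calc 2 * e ≤ 2 * (d ^ (s₀ + 1) * Real.log y ^ (s₀ + 1) * X) := by linarith
      _ = 2 * (d ^ (s₀ + 1) * Real.log y ^ (s₀ + 1)) * X := by ring
      _ ≤ e * y ^ lam * X := mul_le_mul_of_nonneg_right h6 hX0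
  have h8 : 2 ≤ y ^ lam * X := by
    have : e * 2 ≤ e * (y ^ lam * X) := by linarith
    exact le_of_mul_le_mul_left this he
  rw [Real.rpow_neg hy0.le]
  rw [inv_lt_iff_one_lt_mul₀ hylam]
  linarith

/-- **every large place** -/
theorem every {k : ℕ} (α d : Fin k → ℝ) (hα : ∀ j, 0 < α j) (hd : ∀ j, 0 < d j)
    (hinj : ∀ i j, α i = α j → d i = d j → i = j) {κ : ℝ} (B : ℝ) (hκ : 0 < κ) : ∃ δ : ℝ, 0 < δ ∧
    ∀ H : ℝ, ∀ᶠ y : ℝ in atTop, ∀ (m : Fin k → ℕ) (S : ℕ) (c : Fin k → ℕ → ℤ),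
    (∀ j, |(m j : ℝ) - α j * y ^ d j| ≤ B * y ^ (d j - κ)) → (S : ℝ) ≤ y ^ δ →
    (∀ j s, |(c j s : ℝ)| ≤ y ^ δ) → (∀ j, |((∑ s ∈ Finset.range S, c j s : ℤ) : ℝ)| ≤ H) →
    |∑ j, ∑ s ∈ Finset.range S, (c j s : ℝ) * ord (m j + s)| ≤ y ^ δ →
    ∀ j, ∑ s ∈ Finset.range S, c j s = 0 := by
  classical
  obtain ⟨δ, lam, hδ, hlam, hbs⟩ := bad_small α d hα hd B hκ
  refine ⟨δ, hδ, fun H => ?_⟩
  obtain ⟨Box, hBox⟩ : ∃ Box : Finset (Fin k → ℤ), Box = Fintype.piFinset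
    (fun _ : Fin k => Finset.Icc (-(⌊H⌋₊ : ℤ)) ⌊H⌋₊) := ⟨_, rfl⟩
  have hbox : ∀ᶠ y : ℝ in atTop, ∀ C ∈ Box, ∀ j0, C j0 ≠ 0 →
      y ^ (-lam) < |∑ j : {j // d j = d j0}, (C j : ℝ) * α j * ww (d j0 * Real.log y - 1 + Real.log (α j))| := by
    rw [Filter.eventually_all_finset]
    intro C _
    rw [Filter.eventually_all]
    intro j0
    by_cases hC : C j0 = 0
    · exact Filter.Eventually.of_forall fun y h => absurd hC h
    · have h1 := nonvan' (fun j : {j // d j = d j0} => Real.log (α j))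
        (fun j : {j // d j = d j0} => (C j : ℝ) * α j) (fun i j hij => by
          have h1 : α i = α j := Real.log_injOn_pos (hα i) (hα j) hij
          exact Subtype.ext (hinj i j h1 (i.2.trans j.2.symm)))
        ⟨⟨j0, rfl⟩, mul_ne_zero (by exact_mod_cast hC) (hα j0).ne'⟩ (hd j0) hlam
      filter_upwards [h1] with y hy _
      exact hy
  filter_upwards [hbs δ hδ le_rfl, hbox] with y hy hyb m S c hm hS hc hH hsum
  by_contra hcon
  push Not at hcon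
  obtain ⟨-, j0, h1, h2, h3⟩ := hy m S c hm hS hc hsum hcon
  have h4 := hyb (fun j => ∑ s ∈ Finset.range S, c j s) (by
    rw [hBox, Fintype.mem_piFinset]
    intro j
    rw [Finset.mem_Icc, ← abs_le]
    have h1 := hH j
    have h2 : (∑ s ∈ Finset.range S, c j s).natAbs ≤ ⌊H⌋₊ := by
      apply Nat.le_floor
      rw [Nat.cast_natAbs, Int.cast_abs]
      exact h1
    rw [Int.abs_eq_natAbs]
    exact_mod_cast h2) j0 h1
  exact absurd h3 (not_le.2 h4)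

end Pool.Agent.K7.H75.DQ
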