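import Pool.Agent.K7.H75.DQ.B

/-! # Counting the cells which contain bad places -/

set_option autoImplicit false

namespace Pool.Agent.K7.H75.DQ

open Filter Topology
open Pool.Agent.K7.H75.DP
open SG (NZ ord ord_le_iff)

/-- `glob_count` for an arbitrary finite index set and arbitrary heights -/
lemma glob_fin {ι : Type*} [Fintype ι] (β : ι → ℝ) (hβ : Function.Injective β) : ∃ c z₀ K : ℝ, 0 < c ∧ 1 ≤ z₀ ∧
    0 < K ∧ ∀ (C : ι → ℝ), (∃ j, C j ≠ 0) →
    ∀ (M Y ε s : ℝ) (F : Finset ℕ) (Z : ℕ → ℝ), 0 < M → (∃ j, M ≤ |C j|) → 0 ≤ Y → 0 < s → s ≤ 2 →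
    (∀ n ∈ F, z₀ ≤ Z n ∧ Z n ≤ Y) → (∀ n ∈ F, |∑ j, C j * ww (Z n + β j)| ≤ ε) →
    (∀ n ∈ F, ∀ n' ∈ F, n + 2 ≤ n' → Z n + s ≤ Z n') →
    ε / M * (2 / s) ^ Fintype.card ι ≤ c / (4 * Y ^ (2 * Fintype.card ι)) →
    (F.card : ℝ) ≤ 2 ^ Fintype.card ι * 2 * (K / c * Y ^ (2 * Fintype.card ι + 1) + 1) := by
  classical
  obtain ⟨c, z₀, K, hc, hz₀, hK, h⟩ := glob_count (k := Fintype.card ι) (β ∘ (Fintype.equivFin ι).symm)
    (hβ.comp (Equiv.injective _))
  refine ⟨c, z₀, K, hc, hz₀, hK, fun C hC M Y ε s F Z hM hMC hY hs hs2 hF hFε hFs hε => ?_⟩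
  rcases F.eq_empty_or_nonempty with rfl | ⟨n0, hn0⟩
  · rw [Finset.card_empty, Nat.cast_zero]
    positivity
  obtain ⟨j1, hj1⟩ := hC
  have hne : Nonempty ι := ⟨j1⟩
  obtain ⟨jm, hjm⟩ := Finite.exists_max fun j : ι => |C j|
  obtain ⟨M', hM'⟩ : ∃ M' : ℝ, M' = |C jm| := ⟨_, rfl⟩
  have hMM : M ≤ M' := by
    obtain ⟨j, hj⟩ := hMC
    rw [hM']
    exact hj.trans (hjm j)
  have hM'0 : 0 < M' := lt_of_lt_of_le hM hMM
  have hε0 : 0 ≤ ε := (abs_nonneg _).trans (hFε n0 hn0)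
  have hY0 : 0 < Y := by linarith [(hF n0 hn0).1, (hF n0 hn0).2]
  have h1 := h (fun j => C ((Fintype.equivFin ι).symm j) / M') (fun j => by
      rw [abs_div, abs_of_pos hM'0, div_le_one hM'0, hM']
      exact hjm _)
    ⟨Fintype.equivFin ι jm, by
      rw [Equiv.symm_apply_apply, abs_div, abs_of_pos hM'0, ← hM', div_self hM'0.ne']⟩
    Y (ε / M) s 2 F Z hY hs hs2 hF (fun n hn => by
      have h2 := hFε n hn
      have h3 : ∑ j, C ((Fintype.equivFin ι).symm j) / M' *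
          ww (Z n + (β ∘ (Fintype.equivFin ι).symm) j) = (∑ j, C j * ww (Z n + β j)) / M' := by
        rw [Finset.sum_div, ← Equiv.sum_comp (Fintype.equivFin ι).symm]
        refine Finset.sum_congr rfl fun j _ => ?_
        simp only [Function.comp_apply]
        ring
      rw [h3, abs_div, abs_of_pos hM'0]
      exact div_le_div₀ hε0 h2 hM hMM) hFs hε
  exact_mod_cast h1

/-- the cells which contain bad places -/
def Pc {k : ℕ} (α d : Fin k → ℝ) (κ B δ σ y₀ : ℝ) : Set ℕ :=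
  {t | ∃ y : ℝ, y₀ ≤ y ∧ ⌊y ^ σ⌋₊ = t ∧ Bad α d κ B δ y}

/-- **the number of the cells** -/
theorem cells {k : ℕ} (α d : Fin k → ℝ) (hα : ∀ j, 0 < α j) (hd : ∀ j, 0 < d j)
    (hinj : ∀ i j, α i = α j → d i = d j → i = j) {κ : ℝ} (B : ℝ) (hκ : 0 < κ) {η : ℝ} (hη : 0 < η) :
    ∃ δ σ y₀ : ℝ, 0 < δ ∧ 0 < σ ∧ σ ≤ 1 ∧ 1 ≤ y₀ ∧ ∀ᶠ N : ℕ in atTop, ∀ F : Finset ℕ,
    (∀ t ∈ F, t ∈ Pc α d κ B δ σ y₀ ∧ t ≤ N) → (F.card : ℝ) ≤ (N : ℝ) ^ (3 * η) := by
  classical
  obtain ⟨δ₁, lam, hδ₁, hlam, hbs⟩ := bad_small α d hα hd B hκ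
  have hkr : (0 : ℝ) ≤ k := Nat.cast_nonneg _
  have hk1 : (0 : ℝ) < k + 1 := by positivity
  obtain ⟨a, ha0, ha1, ha⟩ := fin_min α hα
  obtain ⟨σ, hσ⟩ : ∃ σ : ℝ, σ = min (η * lam / (k + 1)) 1 := ⟨_, rfl⟩
  have hσ0 : 0 < σ := by rw [hσ]; exact lt_min (by positivity) one_pos
  have hσ1 : σ ≤ 1 := by rw [hσ]; exact min_le_right _ _
  have hσk : (k + 1) ≤ η * lam / σ := by
    rw [le_div_iff₀ hσ0]
    have h1 : σ ≤ η * lam / (k + 1) := by rw [hσ]; exact min_le_left _ _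
    rw [le_div_iff₀ hk1] at h1
    linarith
  obtain ⟨δ, hδ⟩ : ∃ δ : ℝ, δ = min δ₁ (η * σ / (4 * (k + 1))) := ⟨_, rfl⟩
  have hδ0 : 0 < δ := by rw [hδ]; exact lt_min hδ₁ (by positivity)
  have hδδ : δ ≤ δ₁ := by rw [hδ]; exact min_le_left _ _
  have hδσ : 2 * k * δ / σ ≤ η / 2 := by
    rw [div_le_iff₀ hσ0]
    have h1 : δ ≤ η * σ / (4 * (k + 1)) := by rw [hδ]; exact min_le_right _ _
    rw [le_div_iff₀ (by positivity)] at h1
    nlinarith
  obtain ⟨y₁, hy₁⟩ := (hbs δ hδ0 hδδ).exists_forall_of_atTop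
  refine ⟨δ, σ, max y₁ 1, hδ0, hσ0, hσ1, le_max_right _ _, ?_⟩
  -- the counting constants of the classes
  have hglob : ∀ j0 : Fin k, ∃ c z₀ K : ℝ, 0 < c ∧ 1 ≤ z₀ ∧
    0 < K ∧ ∀ (C : {j // d j = d j0} → ℝ), (∃ j, C j ≠ 0) →
    ∀ (M Y ε s : ℝ) (F : Finset ℕ) (Z : ℕ → ℝ), 0 < M → (∃ j, M ≤ |C j|) → 0 ≤ Y → 0 < s → s ≤ 2 →
    (∀ n ∈ F, z₀ ≤ Z n ∧ Z n ≤ Y) → (∀ n ∈ F, |∑ j, C j * ww (Z n + Real.log (α j))| ≤ ε) →
    (∀ n ∈ F, ∀ n' ∈ F, n + 2 ≤ n' → Z n + s ≤ Z n') →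
    ε / M * (2 / s) ^ Fintype.card {j // d j = d j0} ≤ c / (4 * Y ^ (2 * Fintype.card {j // d j = d j0})) →
    (F.card : ℝ) ≤ 2 ^ Fintype.card {j // d j = d j0} * 2 *
      (K / c * Y ^ (2 * Fintype.card {j // d j = d j0} + 1) + 1) := by
    intro j0
    refine glob_fin (fun j : {j // d j = d j0} => Real.log (α j)) (fun i j hij => ?_)
    have h1 : α i = α j := Real.log_injOn_pos (hα i) (hα j) hij
    exact Subtype.ext (hinj i j h1 (i.2.trans j.2.symm))
  choose c z₀ K hc hz₀ hK hgl using hglob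
  have hcard : ∀ j0 : Fin k, Fintype.card {j // d j = d j0} ≤ k := fun j0 => by
    have := Fintype.card_subtype_le (fun j => d j = d j0)
    rwa [Fintype.card_fin] at this
  have hev1 : ∀ᶠ x : ℝ in atTop, ∀ j0 : Fin k, z₀ j0 ≤ d j0 / σ * (η * Real.log x) - 1 ∧
      4 / (a * c j0) * (2 * σ / d j0 + 1) ^ k * (2 * d j0 / σ + 1) ^ (2 * k) * Real.log x ^ (2 * k) ≤ x ^ (1 : ℝ) ∧
      2 ^ k * 2 * (K j0 / c j0 * (2 * d j0 / σ + 1) ^ (2 * k + 1) + 1) * Real.log x ^ (2 * k + 1) ≤ x ^ (η / 2) ∧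
      d j0 / σ * Real.log x ^ 0 ≤ x ^ (1 : ℝ) := by
    rw [Filter.eventually_all]
    intro j0
    refine Filter.Eventually.and ?_ (Filter.Eventually.and (ev_log _ _ one_pos) (Filter.Eventually.and
      (ev_log _ _ (by positivity)) (ev_log _ _ one_pos)))
    have h1 : Tendsto (fun x : ℝ => (d j0 / σ * η) * Real.log x) atTop atTop :=
      Real.tendsto_log_atTop.const_mul_atTop (by have := hd j0; positivity)
    filter_upwards [h1.eventually_ge_atTop (z₀ j0 + 1)] with x hx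
    have e : d j0 / σ * (η * Real.log x) = (d j0 / σ * η) * Real.log x := by ring
    rw [e]
    linarith
  have hev2 : ∀ᶠ x : ℝ in atTop, 3 ≤ x ∧ 4 * Real.log x ^ 0 ≤ x ^ η ∧
      2 * (k * (3 ^ k * 2 ^ (2 * k * δ / σ))) * Real.log x ^ 0 ≤ x ^ (η / 2) := by
    exact (eventually_ge_atTop 3).and ((ev_log _ _ hη).and (ev_log _ _ (by positivity)))
  filter_upwards [tendsto_natCast_atTop_atTop.eventually hev1, tendsto_natCast_atTop_atTop.eventually hev2]
    with N hN1 hN2 F hF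
  obtain ⟨x, hx⟩ : ∃ x : ℝ, x = N := ⟨_, rfl⟩
  rw [← hx] at hN1 hN2 ⊢
  obtain ⟨e0, e1, e2⟩ := hN2
  simp only [pow_zero, mul_one] at e1 e2
  have hx0 : 0 < x := by linarith
  have hx1 : 1 ≤ x := by linarith
  have hlogx : 1 ≤ Real.log x := by
    rw [Real.le_log_iff_exp_le hx0]
    have := Real.exp_one_lt_d9
    linarith
  have hlog2x : Real.log (2 * x) ≤ 2 * Real.log x := by
    have h1 : Real.log (2 * x) ≤ Real.log (x ^ 2) := Real.log_le_log (by linarith) (by nlinarith)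
    rwa [Real.log_pow] at h1
  -- the data of the cells
  have hdat : ∀ t : ℕ, ∃ (y : ℝ) (C : Fin k → ℤ) (j0 : Fin k → Fin k), t ∈ F → y₁ ≤ y ∧ 1 ≤ y ∧ ⌊y ^ σ⌋₊ = t ∧
      (∀ j, |(C j : ℝ)| ≤ y ^ (2 * δ)) ∧ ∃ j0, C j0 ≠ 0 ∧
      |∑ j : {j // d j = d j0}, (C j : ℝ) * α j * ww (d j0 * Real.log y - 1 + Real.log (α j))| ≤ y ^ (-lam) := by
    intro t
    by_cases ht : t ∈ F
    · obtain ⟨⟨y, hy, hyt, m, S, cc, g1, g2, g3, g4, g5⟩, -⟩ := hF t ht
      have hy1 : y₁ ≤ y := (le_max_left _ _).trans hy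
      obtain ⟨h1, j0, h2, h3, h4⟩ := hy₁ y hy1 m S cc g1 g2 g3 g4 g5
      exact ⟨y, fun j => ∑ s ∈ Finset.range S, cc j s, id,
        fun _ => ⟨hy1, (le_max_right _ _).trans hy, hyt, h1, j0, h2, h4⟩⟩
    · exact ⟨0, 0, id, fun h => absurd h ht⟩
  choose yt Ct _ hyt using hdat
  have hdat2 : ∀ t : ℕ, ∃ j0 : Option (Fin k), t ∈ F → ∃ i, j0 = some i ∧ Ct t i ≠ 0 ∧
      |∑ j : {j // d j = d i}, (Ct t j : ℝ) * α j * ww (d i * Real.log (yt t) - 1 + Real.log (α j))| ≤
        (yt t) ^ (-lam) := by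
    intro t
    by_cases ht : t ∈ F
    · obtain ⟨-, -, -, -, j0, h1, h2⟩ := hyt t ht
      exact ⟨some j0, fun _ => ⟨j0, rfl, h1, h2⟩⟩
    · exact ⟨none, fun h => absurd h ht⟩
  choose jt hjt using hdat2
  -- bounds for y
  have hyb : ∀ t ∈ F, x ^ η ≤ t → x ^ (η / σ) ≤ yt t ∧ yt t ≤ (2 * x) ^ (1 / σ) ∧
      (t : ℝ) ≤ (yt t) ^ σ ∧ (yt t) ^ σ < t + 1 := by
    intro t ht htη
    obtain ⟨-, hy1, hfl, -⟩ := hyt t ht
    have hy0 : 0 < yt t := by linarith
    have h1 : (t : ℝ) ≤ (yt t) ^ σ := by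
      have h := Nat.floor_le (show 0 ≤ (yt t) ^ σ by positivity)
      rwa [hfl] at h
    have h2 : (yt t) ^ σ < t + 1 := by
      have h := Nat.lt_floor_add_one ((yt t) ^ σ)
      rwa [hfl] at h
    have htN : (t : ℝ) ≤ x := by rw [hx]; exact_mod_cast (hF t ht).2
    have h3 : ((yt t) ^ σ) ^ (1 / σ) = yt t := by
      rw [← Real.rpow_mul hy0.le, mul_one_div_cancel hσ0.ne', Real.rpow_one]
    refine ⟨?_, ?_, h1, h2⟩
    · rw [← h3]
      calc x ^ (η / σ) = (x ^ η) ^ (1 / σ) := by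
            rw [← Real.rpow_mul hx0.le]; congr 1; ring
        _ ≤ ((yt t) ^ σ) ^ (1 / σ) := Real.rpow_le_rpow (by positivity) (htη.trans h1) (by positivity)
    · rw [← h3]
      exact Real.rpow_le_rpow (by positivity) (by linarith) (by positivity)
  obtain ⟨Hn, hHn⟩ : ∃ Hn : ℕ, Hn = ⌊(2 * x) ^ (2 * δ / σ)⌋₊ := ⟨_, rfl⟩
  have hHle : (Hn : ℝ) ≤ (2 * x) ^ (2 * δ / σ) := by rw [hHn]; exact Nat.floor_le (by positivity)
  have hH1 : 1 ≤ (2 * x) ^ (2 * δ / σ) := Real.one_le_rpow (by linarith) (by positivity)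
  obtain ⟨Box, hBox⟩ : ∃ Box : Finset (Fin k → ℤ), Box = Fintype.piFinset
    (fun _ : Fin k => Finset.Icc (-(Hn : ℤ)) Hn) := ⟨_, rfl⟩
  have hBoxcard : (Box.card : ℝ) ≤ 3 ^ k * (2 ^ (2 * k * δ / σ) * x ^ (2 * k * δ / σ)) := by
    have h1 : Box.card = (2 * Hn + 1) ^ k := by
      rw [hBox, Fintype.card_piFinset]
      simp only [Int.card_Icc, Finset.prod_const, Finset.card_univ, Fintype.card_fin]
      have : ((Hn : ℤ) + 1 - -(Hn : ℤ)).toNat = 2 * Hn + 1 := by omega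
      rw [this]
    rw [h1]
    push_cast
    calc (2 * (Hn : ℝ) + 1) ^ k ≤ (3 * (2 * x) ^ (2 * δ / σ)) ^ k :=
          pow_le_pow_left₀ (by positivity) (by linarith) k
      _ = 3 ^ k * (2 ^ (2 * k * δ / σ) * x ^ (2 * k * δ / σ)) := by
          rw [mul_pow, ← Real.rpow_natCast ((2 * x) ^ (2 * δ / σ)) k, ← Real.rpow_mul (by positivity),
            ← Real.mul_rpow (by norm_num) hx0.le]
          congr 2
          ring
  -- one class
  have hclass : ∀ (C : Fin k → ℤ) (i : Fin k), C i ≠ 0 → ∀ G : Finset ℕ, (∀ t ∈ G, t ∈ F ∧ x ^ η ≤ t ∧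
      |∑ j : {j // d j = d i}, (C j : ℝ) * α j * ww (d i * Real.log (yt t) - 1 + Real.log (α j))| ≤
        (yt t) ^ (-lam)) → (G.card : ℝ) ≤ x ^ (η / 2) := by
    intro C i hCi G hG
    obtain ⟨f1, f2, f3, f4⟩ := hN1 i
    have hdi := hd i
    obtain ⟨q, hq⟩ : ∃ q : ℕ, q = Fintype.card {j // d j = d i} := ⟨_, rfl⟩
    have hqk : q ≤ k := by rw [hq]; exact hcard i
    obtain ⟨Y, hY⟩ : ∃ Y : ℝ, Y = d i / σ * Real.log (2 * x) := ⟨_, rfl⟩
    have hlog2 : 1 ≤ Real.log (2 * x) := hlogx.trans (Real.log_le_log hx0 (by linarith))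
    have hY0 : 0 < Y := by rw [hY]; positivity
    have hYle : Y ≤ (2 * d i / σ + 1) * Real.log x := by
      rw [hY]
      have h1 : d i / σ * Real.log (2 * x) ≤ d i / σ * (2 * Real.log x) :=
        mul_le_mul_of_nonneg_left hlog2x (by positivity)
      have h2 : d i / σ * (2 * Real.log x) = 2 * d i / σ * Real.log x := by ring
      rw [h2] at h1
      linarith
    have hbig : 1 ≤ (2 * d i / σ + 1) * Real.log x := by
      have h1 : 0 ≤ 2 * d i / σ := by positivity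
      nlinarith
    have hpw : ∀ r n : ℕ, r ≤ n → Y ^ r ≤ ((2 * d i / σ + 1) * Real.log x) ^ n := by
      intro r n hrn
      exact (pow_le_pow_left₀ hY0.le hYle r).trans (pow_le_pow_right₀ hbig hrn)
    have hMi : ∃ j : {j // d j = d i}, a ≤ |(C j : ℝ) * α j| := by
      refine ⟨⟨i, rfl⟩, ?_⟩
      show a ≤ |(C i : ℝ) * α i|
      rw [abs_mul, abs_of_pos (hα i)]
      have h2 : (1 : ℝ) ≤ |(C i : ℝ)| := by exact_mod_cast Int.one_le_abs hCi
      have h3 := ha i
      have h4 := hα i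
      nlinarith
    have hsx : 0 < d i / (σ * x) := by positivity
    have hs2 : d i / (σ * x) ≤ 2 := by
      rw [pow_zero, mul_one, Real.rpow_one] at f4
      rw [div_le_iff₀ (by positivity)]
      rw [div_le_iff₀ hσ0] at f4
      nlinarith
    have hmain := hgl i (fun j => (C j : ℝ) * α j)
      ⟨⟨i, rfl⟩, mul_ne_zero (by exact_mod_cast hCi) (hα i).ne'⟩ a Y (x ^ (-(k + 1 : ℝ))) (d i / (σ * x))
      G (fun t => d i * Real.log (yt t) - 1) ha0 hMi hY0.le hsx hs2
      (fun t ht => by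
        obtain ⟨g1, g2, -⟩ := hG t ht
        obtain ⟨b1, b2, -, -⟩ := hyb t g1 g2
        have hyt1 := (hyt t g1).2.1
        have h1 := Real.log_le_log (by positivity) b1
        rw [Real.log_rpow hx0] at h1
        have h2 := Real.log_le_log (by linarith) b2
        rw [Real.log_rpow (by positivity)] at h2
        constructor
        · have h3 := mul_le_mul_of_nonneg_left h1 hdi.le
          have h4 : d i * (η / σ * Real.log x) = d i / σ * (η * Real.log x) := by ring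
          rw [h4] at h3
          linarith
        · have h3 := mul_le_mul_of_nonneg_left h2 hdi.le
          have h4 : d i * (1 / σ * Real.log (2 * x)) = d i / σ * Real.log (2 * x) := by ring
          rw [h4, ← hY] at h3
          linarith)
      (fun t ht => by
        obtain ⟨g1, g2, g3⟩ := hG t ht
        obtain ⟨b1, -, -, -⟩ := hyb t g1 g2
        refine g3.trans ?_
        calc (yt t) ^ (-lam) ≤ (x ^ (η / σ)) ^ (-lam) :=
              Real.rpow_le_rpow_of_nonpos (by positivity) b1 (by linarith)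
          _ = x ^ (-(η * lam / σ)) := by
              rw [← Real.rpow_mul hx0.le]; congr 1; ring
          _ ≤ x ^ (-(k + 1 : ℝ)) := Real.rpow_le_rpow_of_exponent_le hx1 (by linarith))
      (fun t ht t' ht' htt => by
        obtain ⟨g1, g2, -⟩ := hG t ht
        obtain ⟨g1', g2', -⟩ := hG t' ht'
        obtain ⟨-, -, b3, b4⟩ := hyb t g1 g2
        obtain ⟨-, -, b3', b4'⟩ := hyb t' g1' g2'
        have hy0 : 0 < yt t := by linarith [(hyt t g1).2.1]
        have hy0' : 0 < yt t' := by linarith [(hyt t' g1').2.1]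
        have ht'N : (t' : ℝ) ≤ x := by rw [hx]; exact_mod_cast (hF t' g1').2
        have htt' : (t : ℝ) + 2 ≤ t' := by exact_mod_cast htt
        have hyσ : 0 < (yt t) ^ σ := by positivity
        have hyσ' : 0 < (yt t') ^ σ := by positivity
        have h1 := Real.log_le_sub_one_of_pos (show 0 < (yt t) ^ σ / (yt t') ^ σ by positivity)
        rw [Real.log_div hyσ.ne' hyσ'.ne', Real.log_rpow hy0, Real.log_rpow hy0'] at h1
        have ht0 : (0 : ℝ) ≤ t := Nat.cast_nonneg _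
        have h2 : (yt t) ^ σ / (yt t') ^ σ ≤ (t + 1) / (t + 2) := by
          rw [div_le_div_iff₀ hyσ' (by linarith)]
          have h3 : (t : ℝ) + 2 ≤ (yt t') ^ σ := by linarith
          nlinarith
        have h3 : ((t : ℝ) + 1) / (t + 2) ≤ 1 - 1 / x := by
          have h4 : ((t : ℝ) + 1) / (t + 2) = 1 - 1 / (t + 2) := by
            field_simp
            ring
          rw [h4]
          have h5 : 1 / x ≤ 1 / ((t : ℝ) + 2) := one_div_le_one_div_of_le (by linarith) (by linarith)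
          linarith
        have h4 : 1 / x ≤ σ * (Real.log (yt t') - Real.log (yt t)) := by linarith
        have h5 : d i / (σ * x) ≤ d i * (Real.log (yt t') - Real.log (yt t)) := by
          have h6 : 1 / x / σ ≤ Real.log (yt t') - Real.log (yt t) := by
            rw [div_le_iff₀ hσ0]
            linarith
          have h7 := mul_le_mul_of_nonneg_left h6 hdi.le
          have h8 : d i * (1 / x / σ) = d i / (σ * x) := by
            field_simp
          rwa [h8] at h7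
        show d i * Real.log (yt t) - 1 + d i / (σ * x) ≤ d i * Real.log (yt t') - 1
        linarith)
      (by
        rw [← hq]
        have h1 : 2 / (d i / (σ * x)) = 2 * σ / d i * x := by
          field_simp
        rw [h1, le_div_iff₀ (by positivity)]
        have h2 : 2 * σ / d i * x ≤ (2 * σ / d i + 1) * x := by nlinarith
        have h3 : 1 ≤ (2 * σ / d i + 1) * x := by
          have : 0 ≤ 2 * σ / d i := by positivity
          nlinarith
        have h4 : (2 * σ / d i * x) ^ q ≤ ((2 * σ / d i + 1) * x) ^ k :=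
          (pow_le_pow_left₀ (by positivity) h2 q).trans (pow_le_pow_right₀ h3 hqk)
        have h5 : Y ^ (2 * q) ≤ ((2 * d i / σ + 1) * Real.log x) ^ (2 * k) := hpw _ _ (by omega)
        have hci := hc i
        have h6 : x ^ (-(k + 1 : ℝ)) * x ^ k = x ^ (-(1 : ℝ)) := by
          rw [← Real.rpow_natCast x k, ← Real.rpow_add hx0]
          congr 1
          ring
        have h7 : 4 * (2 * σ / d i + 1) ^ k * (2 * d i / σ + 1) ^ (2 * k) * Real.log x ^ (2 * k) ≤
            a * c i * x := by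
          rw [Real.rpow_one] at f2
          have h8 := mul_le_mul_of_nonneg_left f2 (show 0 ≤ a * c i by positivity)
          refine le_trans (le_of_eq ?_) h8
          field_simp
        calc x ^ (-(k + 1 : ℝ)) / a * (2 * σ / d i * x) ^ q * (4 * Y ^ (2 * q))
            ≤ x ^ (-(k + 1 : ℝ)) / a * ((2 * σ / d i + 1) * x) ^ k *
              (4 * ((2 * d i / σ + 1) * Real.log x) ^ (2 * k)) := by
              apply mul_le_mul _ _ (by positivity) (by positivity)
              · exact mul_le_mul_of_nonneg_left h4 (by positivity)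
              · linarith
          _ = (x ^ (-(k + 1 : ℝ)) * x ^ k) / a * (4 * (2 * σ / d i + 1) ^ k * (2 * d i / σ + 1) ^ (2 * k) *
              Real.log x ^ (2 * k)) := by
              rw [mul_pow, mul_pow]
              ring
          _ ≤ x ^ (-(1 : ℝ)) / a * (a * c i * x) := by
              rw [h6]
              exact mul_le_mul_of_nonneg_left h7 (by positivity)
          _ = c i := by
              rw [Real.rpow_neg_one]
              field_simp)
    rw [← hq] at hmain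
    refine hmain.trans ?_
    have hci := hc i
    have hKi := hK i
    have h1 : Y ^ (2 * q + 1) ≤ ((2 * d i / σ + 1) * Real.log x) ^ (2 * k + 1) := hpw _ _ (by omega)
    have h2 : (2 : ℝ) ^ q ≤ 2 ^ k := pow_le_pow_right₀ (by norm_num) hqk
    have h3 : (1 : ℝ) ≤ Real.log x ^ (2 * k + 1) := one_le_pow₀ hlogx
    calc 2 ^ q * 2 * (K i / c i * Y ^ (2 * q + 1) + 1)
        ≤ 2 ^ k * 2 * (K i / c i * ((2 * d i / σ + 1) * Real.log x) ^ (2 * k + 1) + Real.log x ^ (2 * k + 1)) := by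
          apply mul_le_mul _ _ (by positivity) (by positivity)
          · linarith
          · apply add_le_add _ h3
            exact mul_le_mul_of_nonneg_left h1 (by positivity)
      _ = 2 ^ k * 2 * (K i / c i * (2 * d i / σ + 1) ^ (2 * k + 1) + 1) * Real.log x ^ (2 * k + 1) := by
          rw [mul_pow]; ring
      _ ≤ x ^ (η / 2) := f3
  -- the sum over the classes
  obtain ⟨F1, hF1⟩ : ∃ F1 : Finset ℕ, F1 = F.filter (fun t : ℕ => x ^ η ≤ (t : ℝ)) := ⟨_, rfl⟩
  obtain ⟨F2, hF2⟩ : ∃ F2 : Finset ℕ, F2 = F.filter (fun t : ℕ => ¬ x ^ η ≤ (t : ℝ)) := ⟨_, rfl⟩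
  have hF12 : F.card = F1.card + F2.card := by
    rw [hF1, hF2, Finset.card_filter_add_card_filter_not]
  have hF2c : (F2.card : ℝ) ≤ x ^ η + 1 := by
    have h1 : F2 ⊆ Finset.range (⌊x ^ η⌋₊ + 1) := by
      intro t ht
      rw [hF2, Finset.mem_filter] at ht
      rw [Finset.mem_range, Nat.lt_succ_iff]
      exact Nat.le_floor (not_le.1 ht.2).le
    have h2 := Finset.card_le_card h1
    rw [Finset.card_range] at h2
    have h3 : (F2.card : ℝ) ≤ ⌊x ^ η⌋₊ + 1 := by exact_mod_cast h2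
    have h4 := Nat.floor_le (show 0 ≤ x ^ η by positivity)
    linarith
  have hF1c : (F1.card : ℝ) ≤ k * (Box.card : ℝ) * x ^ (η / 2) := by
    have hsub : F1 ⊆ (Box ×ˢ (Finset.univ : Finset (Fin k))).biUnion (fun p => F1.filter
        (fun t => Ct t = p.1 ∧ jt t = some p.2)) := by
      intro t ht
      have htF : t ∈ F ∧ x ^ η ≤ (t : ℝ) := by
        rw [hF1, Finset.mem_filter] at ht
        exact ht
      obtain ⟨-, hy1, hfl, hCb, -⟩ := hyt t htF.1
      obtain ⟨i, hi, -, -⟩ := hjt t htF.1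
      obtain ⟨-, b2, -, -⟩ := hyb t htF.1 htF.2
      refine Finset.mem_biUnion.2 ⟨(Ct t, i), ?_, Finset.mem_filter.2 ⟨ht, rfl, hi⟩⟩
      refine Finset.mem_product.2 ⟨?_, Finset.mem_univ _⟩
      show Ct t ∈ Box
      rw [hBox, Fintype.mem_piFinset]
      intro j
      rw [Finset.mem_Icc, ← abs_le]
      have h1 : |(Ct t j : ℝ)| ≤ (2 * x) ^ (2 * δ / σ) := by
        refine (hCb j).trans ?_
        calc (yt t) ^ (2 * δ) ≤ ((2 * x) ^ (1 / σ)) ^ (2 * δ) :=
              Real.rpow_le_rpow (by linarith) b2 (by positivity)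
          _ = (2 * x) ^ (2 * δ / σ) := by
              rw [← Real.rpow_mul (by positivity)]; congr 1; ring
      have h2 : (Ct t j).natAbs ≤ Hn := by
        rw [hHn]
        apply Nat.le_floor
        rw [Nat.cast_natAbs, Int.cast_abs]
        exact h1
      rw [Int.abs_eq_natAbs]
      exact_mod_cast h2
    have h1 := (Finset.card_le_card hsub).trans Finset.card_biUnion_le
    have h2 : (F1.card : ℝ) ≤ ∑ p ∈ Box ×ˢ (Finset.univ : Finset (Fin k)),
        ((F1.filter (fun t => Ct t = p.1 ∧ jt t = some p.2)).card : ℝ) := by exact_mod_cast h1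
    refine h2.trans ?_
    calc ∑ p ∈ Box ×ˢ (Finset.univ : Finset (Fin k)),
        ((F1.filter (fun t => Ct t = p.1 ∧ jt t = some p.2)).card : ℝ)
        ≤ ∑ p ∈ Box ×ˢ (Finset.univ : Finset (Fin k)), x ^ (η / 2) := by
          refine Finset.sum_le_sum fun p _ => ?_
          rcases (F1.filter (fun t => Ct t = p.1 ∧ jt t = some p.2)).eq_empty_or_nonempty with h0 | ⟨t0, ht0⟩
          · rw [h0, Finset.card_empty, Nat.cast_zero]
            positivity
          · have hmem : ∀ t ∈ F1.filter (fun t => Ct t = p.1 ∧ jt t = some p.2), t ∈ F ∧ x ^ η ≤ (t : ℝ) ∧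
                p.1 p.2 ≠ 0 ∧ |∑ j : {j // d j = d p.2}, (p.1 j : ℝ) * α j *
                  ww (d p.2 * Real.log (yt t) - 1 + Real.log (α j))| ≤ (yt t) ^ (-lam) := by
              intro t ht
              obtain ⟨g1, g2, g3⟩ := Finset.mem_filter.1 ht
              rw [hF1, Finset.mem_filter] at g1
              obtain ⟨i, hi, h3, h4⟩ := hjt t g1.1
              rw [g3] at hi
              have hi' : p.2 = i := Option.some.inj hi
              rw [← hi', g2] at h3 h4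
              exact ⟨g1.1, g1.2, h3, h4⟩
            exact hclass p.1 p.2 (hmem t0 ht0).2.2.1 _ fun t ht =>
              ⟨(hmem t ht).1, (hmem t ht).2.1, (hmem t ht).2.2.2⟩
      _ = k * (Box.card : ℝ) * x ^ (η / 2) := by
          rw [Finset.sum_const, Finset.card_product, Finset.card_univ, Fintype.card_fin, nsmul_eq_mul]
          push_cast
          ring
  have hBk : k * (Box.card : ℝ) ≤ x ^ η / 2 := by
    calc (k : ℝ) * (Box.card : ℝ) ≤ k * (3 ^ k * (2 ^ (2 * k * δ / σ) * x ^ (2 * k * δ / σ))) :=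
          mul_le_mul_of_nonneg_left hBoxcard hkr
      _ = k * (3 ^ k * 2 ^ (2 * k * δ / σ)) * x ^ (2 * k * δ / σ) := by ring
      _ ≤ (x ^ (η / 2) / 2) * x ^ (η / 2) := by
          apply mul_le_mul _ (Real.rpow_le_rpow_of_exponent_le hx1 hδσ) (by positivity) (by positivity)
          linarith
      _ = x ^ η / 2 := by
          have : x ^ η = x ^ (η / 2) * x ^ (η / 2) := by
            rw [← Real.rpow_add hx0]; congr 1; ring
          rw [this]; ring
  have h10 : (F.card : ℝ) = F1.card + F2.card := by exact_mod_cast hF12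
  have h11 : x ^ (3 * η) = x ^ η * x ^ η * x ^ η := by
    rw [← Real.rpow_add hx0, ← Real.rpow_add hx0]; congr 1; ring
  have h12 : x ^ (η / 2) ≤ x ^ η := Real.rpow_le_rpow_of_exponent_le hx1 (by linarith)
  have h13 : 0 < x ^ (η / 2) := by positivity
  have h14 : k * (Box.card : ℝ) * x ^ (η / 2) ≤ x ^ η / 2 * x ^ η :=
    mul_le_mul hBk h12 h13.le (by positivity)
  rw [h10, h11]
  obtain ⟨u, hu⟩ : ∃ u : ℝ, u = x ^ η := ⟨_, rfl⟩
  rw [← hu] at e1 h14 hF2c ⊢
  nlinarith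

end Pool.Agent.K7.H75.DQ
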