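import Pool.Agent.K7.H75.DQ.C
import Pool.Agent.R482.ST.Star

/-! # Places at the values of functions, outside a set of dimension zero -/

set_option autoImplicit false

namespace Pool.Agent.K7.H75.DQ

open Filter Topology
open Pool.Agent.K7.H75.DP
open SG (NZ ord ord_le_iff)
open Pool.Agent.R482.ST (Starshaped Conv windows large)

/-- the cell of a number -/
lemma cell_close {y σ : ℝ} (hy : 1 ≤ y) (hσ : 0 < σ) (hσ1 : σ ≤ 1) {t : ℕ} (ht : ⌊y ^ σ⌋₊ = t) :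
    |(t : ℝ) ^ (1 / σ) - y| ≤ 1 / σ * y ^ (1 - σ) := by
  have hy0 : 0 < y := by linarith
  obtain ⟨a, ha⟩ : ∃ a : ℝ, a = y ^ σ := ⟨_, rfl⟩
  have ha0 : 0 < a := by rw [ha]; positivity
  have h1 : (t : ℝ) ≤ a := by
    have h := Nat.floor_le (show 0 ≤ y ^ σ by positivity)
    rw [ht] at h
    rw [ha]; exact h
  have h2 : a < t + 1 := by
    have h := Nat.lt_floor_add_one (y ^ σ)
    rw [ht] at h
    rw [ha]; exact h
  have hp : 1 ≤ 1 / σ := by rw [le_div_iff₀ hσ]; linarith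
  have hya : a ^ (1 / σ) = y := by
    rw [ha, ← Real.rpow_mul hy0.le, mul_one_div_cancel hσ.ne', Real.rpow_one]
  have ht0 : (0 : ℝ) ≤ t := Nat.cast_nonneg _
  have h3 : (t : ℝ) ^ (1 / σ) ≤ y := by
    rw [← hya]
    exact Real.rpow_le_rpow ht0 h1 (by positivity)
  have h4 := one_add_mul_self_le_rpow_one_add (s := (t : ℝ) / a - 1) (by
    have : 0 ≤ (t : ℝ) / a := by positivity
    linarith) hp
  have h5 : (1 : ℝ) + ((t : ℝ) / a - 1) = t / a := by ring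
  rw [h5, Real.div_rpow ht0 ha0.le, hya] at h4
  rw [le_div_iff₀ hy0] at h4
  have h6 : 1 - 1 / σ * (1 / a) ≤ 1 + 1 / σ * ((t : ℝ) / a - 1) := by
    have h7 : (t : ℝ) / a - 1 ≥ -(1 / a) := by
      have h8 : (t : ℝ) / a - 1 + 1 / a = (t + 1 - a) / a := by
        field_simp
        ring
      have h9 : 0 ≤ ((t : ℝ) + 1 - a) / a := div_nonneg (by linarith) ha0.le
      linarith
    nlinarith
  have h7 : y / a = y ^ (1 - σ) := by
    rw [ha, Real.rpow_sub hy0, Real.rpow_one]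
  rw [abs_sub_comm, abs_of_nonneg (by linarith)]
  have h8 : y - 1 / σ * (y / a) ≤ (t : ℝ) ^ (1 / σ) := by
    calc y - 1 / σ * (y / a) = (1 - 1 / σ * (1 / a)) * y := by ring
      _ ≤ (1 + 1 / σ * ((t : ℝ) / a - 1)) * y := mul_le_mul_of_nonneg_right h6 hy0.le
      _ ≤ (t : ℝ) ^ (1 / σ) := h4
  rw [← h7]
  linarith

/-- **small dimension** -/
theorem small_dim {k : ℕ} (α d : Fin k → ℝ) (hα : ∀ j, 0 < α j) (hd : ∀ j, 0 < d j)
    (hinj : ∀ i j, α i = α j → d i = d j → i = j) {κ : ℝ} (B : ℝ) (hκ : 0 < κ) {a : ℝ}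
    {f : ℕ → ℝ → ℝ} (hf : Starshaped a f) (hv : Conv a f 0) {η : ℝ} (hη : 0 < η) :
    ∃ (δ : ℝ) (E : Set ℝ), 0 < δ ∧ dimH E ≤ ENNReal.ofReal (3 * η) ∧ ∀ x : ℝ, a < x → x ∉ E →
      ∃ n₀ : ℕ, ∀ n : ℕ, n₀ ≤ n → ¬ Bad α d κ B δ (f n x) := by
  classical
  obtain ⟨δ, σ, y₀, hδ, hσ, hσ1, hy₀, hcells⟩ := cells α d hα hd hinj B hκ hη
  obtain ⟨N₀, hN₀⟩ := hcells.exists_forall_of_atTop
  obtain ⟨E, hE, hwin⟩ := windows (Pc α d κ B δ σ y₀) (fun t : ℕ => (t : ℝ) ^ (1 / σ)) (s := 3 * η * σ)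
    (θ := 1 - σ) hf le_rfl hv (by positivity) (by linarith) (by
      intro ε hε
      refine ⟨(N₀ : ℝ) + 2 + 2 ^ (3 * η), fun X hX => ?_⟩
      have hX0 : 0 < X := by linarith
      obtain ⟨U, hU⟩ : ∃ U : ℝ, U = X ^ σ := ⟨_, rfl⟩
      have hU1 : 1 ≤ U := by rw [hU]; exact Real.one_le_rpow hX hσ.le
      have hU0 : 0 < U := by linarith
      have hle : ∀ t : ℕ, (t : ℝ) ^ (1 / σ) ≤ X → t ≤ ⌊U⌋₊ := by
        intro t ht
        apply Nat.le_floor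
        have h1 : ((t : ℝ) ^ (1 / σ)) ^ σ ≤ X ^ σ := Real.rpow_le_rpow (by positivity) ht hσ.le
        rwa [← Real.rpow_mul (Nat.cast_nonneg _), one_div_mul_cancel hσ.ne', Real.rpow_one, ← hU] at h1
      have hsub : {t : ℕ | t ∈ Pc α d κ B δ σ y₀ ∧ (t : ℝ) ^ (1 / σ) ≤ X} ⊆
          (((Finset.range (⌊U⌋₊ + 1)).filter (fun t => t ∈ Pc α d κ B δ σ y₀) : Finset ℕ) : Set ℕ) := by
        rintro t ⟨ht1, ht2⟩
        rw [Finset.mem_coe, Finset.mem_filter, Finset.mem_range, Nat.lt_succ_iff]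
        exact ⟨hle t ht2, ht1⟩
      refine ⟨(Finset.finite_toSet _).subset hsub, ?_⟩
      have h1 := Set.ncard_le_ncard hsub (Finset.finite_toSet _)
      rw [Set.ncard_coe_finset] at h1
      have h2 : ({t : ℕ | t ∈ Pc α d κ B δ σ y₀ ∧ (t : ℝ) ^ (1 / σ) ≤ X}.ncard : ℝ) ≤
          (((Finset.range (⌊U⌋₊ + 1)).filter (fun t => t ∈ Pc α d κ B δ σ y₀)).card : ℝ) := by exact_mod_cast h1
      refine h2.trans ?_
      have hflU : (⌊U⌋₊ : ℝ) ≤ U := Nat.floor_le hU0.le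
      have hXs : X ^ (3 * η * σ) ≤ X ^ (3 * η * σ + ε) := Real.rpow_le_rpow_of_exponent_le hX (by linarith)
      have hU3 : U ^ (3 * η) = X ^ (3 * η * σ) := by
        rw [hU, ← Real.rpow_mul hX0.le]; congr 1; ring
      have hone : 1 ≤ X ^ (3 * η * σ + ε) := Real.one_le_rpow hX (by positivity)
      have hN0r : (0 : ℝ) ≤ N₀ := Nat.cast_nonneg _
      by_cases hbig : N₀ ≤ ⌊U⌋₊
      · have h3 := hN₀ ⌊U⌋₊ hbig ((Finset.range (⌊U⌋₊ + 1)).filter (fun t => t ∈ Pc α d κ B δ σ y₀))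
          (fun t ht => by
            rw [Finset.mem_filter, Finset.mem_range, Nat.lt_succ_iff] at ht
            exact ⟨ht.2, ht.1⟩)
        refine h3.trans ?_
        have h4 : (⌊U⌋₊ : ℝ) ^ (3 * η) ≤ U ^ (3 * η) :=
          Real.rpow_le_rpow (Nat.cast_nonneg _) hflU (by positivity)
        have h5 : (0 : ℝ) < 2 ^ (3 * η) := by positivity
        rw [hU3] at h4
        calc (⌊U⌋₊ : ℝ) ^ (3 * η) ≤ X ^ (3 * η * σ + ε) := h4.trans hXs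
          _ ≤ ((N₀ : ℝ) + 2 + 2 ^ (3 * η)) * X ^ (3 * η * σ + ε) :=
              le_mul_of_one_le_left (by linarith) (by linarith)
      · push Not at hbig
        have h3 : (((Finset.range (⌊U⌋₊ + 1)).filter (fun t => t ∈ Pc α d κ B δ σ y₀)).card : ℝ) ≤ N₀ + 1 := by
          have h4 := (Finset.card_filter_le (Finset.range (⌊U⌋₊ + 1)) (fun t => t ∈ Pc α d κ B δ σ y₀))
          rw [Finset.card_range] at h4
          have h5 : ((Finset.range (⌊U⌋₊ + 1)).filter (fun t => t ∈ Pc α d κ B δ σ y₀)).card ≤ N₀ + 1 := by omega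
          exact_mod_cast h5
        refine h3.trans ?_
        have h5 : (0 : ℝ) < 2 ^ (3 * η) := by positivity
        nlinarith)
  have hdim : (3 * η * σ + 0) / (1 - (1 - σ)) = 3 * η := by
    have : 1 - (1 - σ) = σ := by ring
    rw [this, add_zero]
    field_simp
  rw [hdim] at hE
  refine ⟨δ, E, hδ, hE, fun x hx hxE => ?_⟩
  obtain ⟨n₀, hn₀⟩ := hwin x hx hxE (1 / σ)
  have hfp : ∀ n, 0 < f n x := fun n => (hf.2 n x x hx le_rfl).1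
  obtain ⟨n₁, hn₁⟩ := (large hfp one_pos (hv x hx 1 one_pos) y₀).exists_forall_of_atTop
  refine ⟨max n₀ n₁, fun n hn hbad => ?_⟩
  have hy := hn₁ n ((le_max_right _ _).trans hn)
  have h1 := hn₀ n ((le_max_left _ _).trans hn) ⌊(f n x) ^ σ⌋₊ ⟨f n x, hy, rfl, hbad⟩
  have h2 := cell_close (hy₀.trans hy) hσ hσ1 rfl
  exact absurd h2 (not_le.2 h1)

/-- **dimension zero, one family of places** -/
theorem zero_dim {k : ℕ} (α d : Fin k → ℝ) (hα : ∀ j, 0 < α j) (hd : ∀ j, 0 < d j)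
    (hinj : ∀ i j, α i = α j → d i = d j → i = j) {κ : ℝ} (B : ℝ) (hκ : 0 < κ) {a : ℝ}
    {f : ℕ → ℝ → ℝ} (hf : Starshaped a f) (hv : Conv a f 0) :
    ∃ E : Set ℝ, dimH E = 0 ∧ ∀ x : ℝ, a < x → x ∉ E →
      ∃ δ : ℝ, 0 < δ ∧ ∃ n₀ : ℕ, ∀ n : ℕ, n₀ ≤ n → ¬ Bad α d κ B δ (f n x) := by
  have h := fun l : ℕ => small_dim α d hα hd hinj B hκ hf hv (η := 1 / ((l : ℝ) + 1)) (by positivity)
  choose δ E hδ hE hx using h
  refine ⟨⋂ l, E l, ?_, fun x hxa hxE => ?_⟩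
  · refine le_antisymm ?_ zero_le
    have h1 : ∀ l : ℕ, dimH (⋂ l, E l) ≤ ENNReal.ofReal (3 * (1 / ((l : ℝ) + 1))) := fun l =>
      (dimH_mono (Set.iInter_subset E l)).trans (hE l)
    have h2 : Tendsto (fun l : ℕ => ENNReal.ofReal (3 * (1 / ((l : ℝ) + 1)))) atTop (𝓝 0) := by
      have h3 : Tendsto (fun l : ℕ => 3 * (1 / ((l : ℝ) + 1))) atTop (𝓝 (3 * 0)) :=
        tendsto_one_div_add_atTop_nhds_zero_nat.const_mul 3
      rw [mul_zero] at h3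
      have h4 := ENNReal.tendsto_ofReal h3
      rwa [ENNReal.ofReal_zero] at h4
    exact ge_of_tendsto' h2 h1
  · rw [Set.mem_iInter] at hxE
    push Not at hxE
    obtain ⟨l, hl⟩ := hxE
    obtain ⟨n₀, hn₀⟩ := hx l x hxa hl
    exact ⟨δ l, hδ l, n₀, hn₀⟩

lemma Bad.mono {k : ℕ} {α d : Fin k → ℝ} {κ κ' B B' δ y : ℝ} (hy : 1 ≤ y) (hκ : κ' ≤ κ) (hB : B ≤ B')
    (hB0 : 0 ≤ B') (h : Bad α d κ B δ y) : Bad α d κ' B' δ y := by
  obtain ⟨m, S, c, h1, h2⟩ := h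
  refine ⟨m, S, c, fun j => (h1 j).trans ?_, h2⟩
  have hy0 : 0 < y := by linarith
  have h3 : y ^ (d j - κ) ≤ y ^ (d j - κ') := Real.rpow_le_rpow_of_exponent_le hy (by linarith)
  have h4 : 0 < y ^ (d j - κ) := by positivity
  calc B * y ^ (d j - κ) ≤ B' * y ^ (d j - κ) := mul_le_mul_of_nonneg_right hB h4.le
    _ ≤ B' * y ^ (d j - κ') := mul_le_mul_of_nonneg_left h3 hB0

/-- **dimension zero, all places with parameters in a countable set** -/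
theorem zero_dim_all (Q : Set ℝ) (hQ : Q.Countable) (hQ0 : ∀ q ∈ Q, 0 < q) {a : ℝ}
    {f : ℕ → ℝ → ℝ} (hf : Starshaped a f) (hv : Conv a f 0) :
    ∃ E : Set ℝ, dimH E = 0 ∧ ∀ x : ℝ, a < x → x ∉ E → ∀ (k : ℕ) (α d : Fin k → ℝ), (∀ j, α j ∈ Q) →
      (∀ j, d j ∈ Q) → (∀ i j, α i = α j → d i = d j → i = j) → ∀ κ B : ℝ, 0 < κ →
      ∃ δ : ℝ, 0 < δ ∧ ∃ n₀ : ℕ, ∀ n : ℕ, n₀ ≤ n → ¬ Bad α d κ B δ (f n x) := by
  classical
  have hc : Countable Q := hQ.to_subtype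
  have h : ∀ p : (Σ k : ℕ, (Fin k → Q) × (Fin k → Q)) × ℕ × ℕ, ∃ E : Set ℝ, dimH E = 0 ∧
      ((∀ i j, p.1.2.1 i = p.1.2.1 j → p.1.2.2 i = p.1.2.2 j → i = j) → ∀ x : ℝ, a < x → x ∉ E →
      ∃ δ : ℝ, 0 < δ ∧ ∃ n₀ : ℕ, ∀ n : ℕ, n₀ ≤ n →
        ¬ Bad (fun j => (p.1.2.1 j : ℝ)) (fun j => (p.1.2.2 j : ℝ)) (1 / ((p.2.1 : ℝ) + 1)) (p.2.2 : ℝ) δ (f n x)) := by
    intro p
    by_cases hp : ∀ i j, p.1.2.1 i = p.1.2.1 j → p.1.2.2 i = p.1.2.2 j → i = j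
    · obtain ⟨E, h1, h2⟩ := zero_dim (fun j => (p.1.2.1 j : ℝ)) (fun j => (p.1.2.2 j : ℝ))
        (fun j => hQ0 _ (p.1.2.1 j).2) (fun j => hQ0 _ (p.1.2.2 j).2)
        (fun i j h1 h2 => hp i j (Subtype.ext h1) (Subtype.ext h2)) (p.2.2 : ℝ)
        (show 0 < 1 / ((p.2.1 : ℝ) + 1) by positivity) hf hv
      exact ⟨E, h1, fun _ => h2⟩
    · exact ⟨∅, dimH_empty, fun h => absurd h hp⟩
  choose E hE hx using h
  refine ⟨⋃ p, E p, ?_, fun x hxa hxE k α d hαQ hdQ hne κ B hκ => ?_⟩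
  · rw [dimH_iUnion]
    simp only [hE]
    simp
  · obtain ⟨i, hi⟩ := exists_nat_one_div_lt hκ
    obtain ⟨B', hB'⟩ := exists_nat_ge B
    obtain ⟨p, hp⟩ : ∃ p : (Σ k : ℕ, (Fin k → Q) × (Fin k → Q)) × ℕ × ℕ,
        p = (⟨k, fun j => ⟨α j, hαQ j⟩, fun j => ⟨d j, hdQ j⟩⟩, i, B') := ⟨_, rfl⟩
    have hxp : x ∉ E p := fun h => hxE (Set.mem_iUnion.2 ⟨p, h⟩)
    have h1 := hx p (by
      rw [hp]
      intro i j h1 h2
      exact hne i j (congrArg Subtype.val h1) (congrArg Subtype.val h2)) x hxa hxp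
    rw [hp] at h1
    obtain ⟨δ, hδ, n₀, hn₀⟩ := h1
    have hfp : ∀ n, 0 < f n x := fun n => (hf.2 n x x hxa le_rfl).1
    obtain ⟨n₁, hn₁⟩ := (large hfp one_pos (hv x hxa 1 one_pos) 1).exists_forall_of_atTop
    refine ⟨δ, hδ, max n₀ n₁, fun n hn hbad => hn₀ n ((le_max_left _ _).trans hn) ?_⟩
    exact Bad.mono (hn₁ n ((le_max_right _ _).trans hn)) hi.le hB' (Nat.cast_nonneg _) hbad

end Pool.Agent.K7.H75.DQ
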